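import Mathlib

set_option autoImplicit false

open Set Function Finset
open scoped Real Topology

namespace Pool.Agent.H720R2

/-- truncated exponential series -/
noncomputable def ex (a : ℕ) (y : ℝ) : ℝ := ∑ k ∈ range a, y ^ k / (k.factorial : ℝ)

theorem ex_nonneg (a : ℕ) {y : ℝ} (hy : 0 ≤ y) : 0 ≤ ex a y := by
  unfold ex; positivity

theorem ex_le_exp (a : ℕ) {y : ℝ} (hy : 0 ≤ y) : ex a y ≤ Real.exp y :=
  Real.sum_le_exp_of_nonneg hy a

theorem ex_add_le_exp (a : ℕ) {y : ℝ} (hy : 0 ≤ y) :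
    ex a y + y ^ a / (a.factorial : ℝ) ≤ Real.exp y := by
  have := Real.sum_le_exp_of_nonneg hy (a + 1)
  rw [sum_range_succ] at this
  exact this

theorem exp_neg_mul_ex_le_one (a : ℕ) {y : ℝ} (hy : 0 ≤ y) : Real.exp (-y) * ex a y ≤ 1 := by
  calc Real.exp (-y) * ex a y ≤ Real.exp (-y) * Real.exp y := by
        gcongr; exact ex_le_exp a hy
    _ = 1 := by rw [← Real.exp_add]; simp

/-- the constant `q < 1` -/
noncomputable def qc (ε : ℝ) (a : ℕ) : ℝ :=
  max (83 / 100) (1 - Real.exp (-(2 * ε)) * ((ε / 2) ^ a / (a.factorial : ℝ)))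

theorem qc_pos (ε : ℝ) (a : ℕ) : 0 < qc ε a := lt_of_lt_of_le (by norm_num) (le_max_left _ _)

theorem qc_lt_one {ε : ℝ} (hε : 0 < ε) (a : ℕ) : qc ε a < 1 := by
  refine max_lt (by norm_num) ?_
  have : 0 < Real.exp (-(2 * ε)) * ((ε / 2) ^ a / (a.factorial : ℝ)) := by positivity
  linarith

theorem mul_exp_le_one {u : ℝ} (_hu : 0 ≤ u) : u * Real.exp (1 - u) ≤ 1 := by
  have h1 : u ≤ Real.exp (u - 1) := by
    have := Real.add_one_le_exp (u - 1); linarith
  calc u * Real.exp (1 - u) ≤ Real.exp (u - 1) * Real.exp (1 - u) := by gcongr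
    _ = 1 := by rw [← Real.exp_add]; simp

theorem phi_le {ε : ℝ} (hε : 0 < ε) (a : ℕ) {u : ℝ} (hu : 0 ≤ u) :
    u * Real.exp (1 - u) * (Real.exp (-(ε * u)) * ex a (ε * u)) ≤ qc ε a := by
  have hy : 0 ≤ ε * u := by positivity
  have h1 := exp_neg_mul_ex_le_one a hy
  have h0 : 0 ≤ Real.exp (-(ε * u)) * ex a (ε * u) := mul_nonneg (Real.exp_pos _).le (ex_nonneg a hy)
  rcases le_total u (1 / 2) with hu1 | hu1
  · have h2 : u ≤ 1 / 2 * Real.exp (u - 1 / 2) := by
      have := Real.add_one_le_exp (u - 1 / 2); linarith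
    have h3 : u * Real.exp (1 - u) ≤ 83 / 100 := by
      calc u * Real.exp (1 - u) ≤ 1 / 2 * Real.exp (u - 1 / 2) * Real.exp (1 - u) := by gcongr
        _ = 1 / 2 * Real.exp (1 / 2) := by
            rw [mul_assoc, ← Real.exp_add]; congr 2; ring
        _ ≤ 83 / 100 := by
            have h4 : Real.exp (1 / 2) ^ 2 = Real.exp 1 := by
              rw [← Real.exp_nat_mul]; norm_num
            have h5 := Real.exp_one_lt_d9
            have h6 : Real.exp (1 / 2) ≤ 166 / 100 := by
              have h7 : (0 : ℝ) ≤ 166 / 100 := by norm_num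
              apply le_of_sq_le_sq _ h7 |> fun h => h
              rw [h4]; norm_num; linarith
            linarith
    calc u * Real.exp (1 - u) * (Real.exp (-(ε * u)) * ex a (ε * u)) ≤ 83 / 100 * 1 := by
          gcongr
      _ = 83 / 100 := by norm_num
      _ ≤ qc ε a := le_max_left _ _
  · rcases le_total u 2 with hu2 | hu2
    · have h2 := mul_exp_le_one hu
      have h3 := ex_add_le_exp a hy
      have h4 : Real.exp (-(ε * u)) * ex a (ε * u) ≤
          1 - Real.exp (-(2 * ε)) * ((ε / 2) ^ a / (a.factorial : ℝ)) := by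
        have h5 : Real.exp (-(ε * u)) * (ex a (ε * u) + (ε * u) ^ a / (a.factorial : ℝ)) ≤ 1 := by
          calc _ ≤ Real.exp (-(ε * u)) * Real.exp (ε * u) := by gcongr
            _ = 1 := by rw [← Real.exp_add]; simp
        have h6 : Real.exp (-(2 * ε)) * ((ε / 2) ^ a / (a.factorial : ℝ)) ≤
            Real.exp (-(ε * u)) * ((ε * u) ^ a / (a.factorial : ℝ)) := by
          have h7 : ε / 2 ≤ ε * u := by nlinarith
          have h8 : -(2 * ε) ≤ -(ε * u) := by nlinarith
          gcongr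
        linarith
      calc u * Real.exp (1 - u) * (Real.exp (-(ε * u)) * ex a (ε * u)) ≤
            1 * (1 - Real.exp (-(2 * ε)) * ((ε / 2) ^ a / (a.factorial : ℝ))) := by
            gcongr
        _ ≤ qc ε a := by rw [one_mul]; exact le_max_right _ _
    · have h2 : u ≤ 2 * Real.exp (u - 2) := by
        have := Real.add_one_le_exp (u - 2); linarith
      have h3 : u * Real.exp (1 - u) ≤ 83 / 100 := by
        calc u * Real.exp (1 - u) ≤ 2 * Real.exp (u - 2) * Real.exp (1 - u) := by gcongr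
          _ = 2 * Real.exp (-1) := by
              rw [mul_assoc, ← Real.exp_add]; congr 2; ring
          _ ≤ 83 / 100 := by
              rw [Real.exp_neg]
              have h5 := Real.exp_one_gt_d9
              rw [mul_inv_le_iff₀ (Real.exp_pos 1)]
              linarith
      calc u * Real.exp (1 - u) * (Real.exp (-(ε * u)) * ex a (ε * u)) ≤ 83 / 100 * 1 := by
            gcongr
        _ = 83 / 100 := by norm_num
        _ ≤ qc ε a := le_max_left _ _

variable {n : ℕ}

theorem prod_le_pow_sum {x : Fin n → ℝ} (hx : ∀ i, 0 ≤ x i) :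
    ∏ i, ((n : ℝ) * x i) ≤ (∑ i, x i) ^ n := by
  obtain hn | hn := Nat.eq_zero_or_pos n
  · subst hn; simp
  have hn' : (0 : ℝ) < n := by exact_mod_cast hn
  set s := ∑ i, x i with hs
  have hs0 : 0 ≤ s := Finset.sum_nonneg fun i _ => hx i
  obtain h0 | h0 := hs0.eq_or_lt
  · have h1 : ∀ i, x i = 0 := by
      intro i
      have := (Finset.sum_eq_zero_iff_of_nonneg (fun i _ => hx i)).1 (hs.symm.trans h0.symm)
      exact this i (Finset.mem_univ i)
    have : ∏ i, ((n : ℝ) * x i) = 0 := by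
      apply Finset.prod_eq_zero (Finset.mem_univ ⟨0, hn⟩)
      rw [h1]; simp
    rw [this, ← h0]
    exact pow_nonneg le_rfl n
  · have h1 : ∀ i, (n : ℝ) * x i ≤ s * Real.exp (n * x i / s - 1) := by
      intro i
      have := Real.add_one_le_exp (n * x i / s - 1)
      calc (n : ℝ) * x i = s * (n * x i / s - 1 + 1) := by field_simp; ring
        _ ≤ _ := by gcongr
    calc ∏ i, ((n : ℝ) * x i) ≤ ∏ i, (s * Real.exp (n * x i / s - 1)) :=
          Finset.prod_le_prod (fun i _ => mul_nonneg hn'.le (hx i)) fun i _ => h1 i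
      _ = s ^ n * Real.exp (∑ i, (n * x i / s - 1)) := by
          rw [Finset.prod_mul_distrib, ← Real.exp_sum]; simp
      _ = s ^ n := by
          have : ∑ i, (n * x i / s - 1) = 0 := by
            rw [Finset.sum_sub_distrib, ← Finset.sum_div, ← Finset.mul_sum, ← hs]
            simp
            field_simp
            ring
          rw [this, Real.exp_zero, mul_one]

theorem prod_ex_le {ε : ℝ} (hε : 0 < ε) (a : ℕ) {x : Fin n → ℝ} (hx : ∀ i, 0 ≤ x i)
    (hs : ∑ i, x i ≤ 1) :
    (∏ i, ((n : ℝ) * x i)) * (Real.exp (-(ε * n)) * ∏ i, ex a (ε * n * x i)) ≤ qc ε a ^ n := by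
  have h1 : (∏ i, ((n : ℝ) * x i)) * (Real.exp (-(ε * n)) * ∏ i, ex a (ε * n * x i)) =
      (∏ i, ((n * x i) * Real.exp (1 - n * x i) *
        (Real.exp (-(ε * (n * x i))) * ex a (ε * (n * x i))))) *
        Real.exp (-((1 - ∑ i, x i) * (n + ε * n))) := by
    simp only [Finset.prod_mul_distrib]
    rw [← Real.exp_sum, ← Real.exp_sum]
    have e1 : ∑ i : Fin n, (1 - (n : ℝ) * x i) = n - n * ∑ i, x i := by
      rw [Finset.sum_sub_distrib, ← Finset.mul_sum]; simp
    have e2 : ∑ i : Fin n, -(ε * ((n : ℝ) * x i)) = -(ε * n * ∑ i, x i) := by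
      rw [Finset.sum_neg_distrib, Finset.mul_sum]
      congr 1
      exact Finset.sum_congr rfl fun i _ => by ring
    rw [e1, e2]
    have e3 : Real.exp (-(ε * n)) = Real.exp (n - n * ∑ i, x i) *
        Real.exp (-(ε * n * ∑ i, x i)) * Real.exp (-((1 - ∑ i, x i) * (n + ε * n))) := by
      rw [← Real.exp_add, ← Real.exp_add]; congr 1; ring
    rw [e3]
    have e4 : ∀ i : Fin n, ex a (ε * n * x i) = ex a (ε * (n * x i)) := fun i => by
      rw [mul_assoc]
    simp only [e4]
    ring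
  rw [h1]
  have h2 : Real.exp (-((1 - ∑ i, x i) * (n + ε * n))) ≤ 1 := by
    rw [Real.exp_le_one_iff]
    have : 0 ≤ (1 - ∑ i, x i) * (n + ε * n) := by
      apply mul_nonneg (by linarith); positivity
    linarith
  have hn0 : (0 : ℝ) ≤ n := Nat.cast_nonneg n
  calc _ ≤ (∏ _i : Fin n, qc ε a) * 1 := by
        gcongr with i
        · exact Finset.prod_nonneg fun i _ => (by have := (qc_pos ε a).le; positivity)
        · intro i _
          have := hx i
          have h3 : 0 ≤ ex a (ε * (n * x i)) := ex_nonneg a (by positivity)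
          positivity
        · exact phi_le hε a (mul_nonneg hn0 (hx i))
    _ = qc ε a ^ n := by simp

theorem pow_mul_one_sub_le {s : ℝ} (h0 : 0 ≤ s) (h1 : s ≤ 1) (n : ℕ) :
    s ^ n * (1 - s) ≤ 1 / (n + 1) := by
  rw [le_div_iff₀ (by positivity)]
  have h2 : (∑ i ∈ range (n + 1), s ^ i) * (1 - s) = 1 - s ^ (n + 1) := by
    have := geom_sum_mul_neg s (n + 1)
    exact this
  have h3 : ((n : ℝ) + 1) * s ^ n ≤ ∑ i ∈ range (n + 1), s ^ i := by
    calc ((n : ℝ) + 1) * s ^ n = ∑ _i ∈ range (n + 1), s ^ n := by simp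
      _ ≤ _ := Finset.sum_le_sum fun i hi =>
          pow_le_pow_of_le_one h0 h1 (by simp at hi; omega)
  have h4 : 0 ≤ 1 - s := by linarith
  have h5 : 0 ≤ s ^ (n + 1) := by positivity
  nlinarith [mul_le_mul_of_nonneg_right h3 h4]

/-- the index set of monomials with exponents `< K`, at least one of them `≥ a` -/
def idx (n K a : ℕ) : Finset (Fin n → ℕ) :=
  (Fintype.piFinset fun _ : Fin n => range K).filter fun α => ∃ i, a ≤ α i

theorem mem_idx {n K a : ℕ} {α : Fin n → ℕ} :
    α ∈ idx n K a ↔ (∀ i, α i < K) ∧ ∃ i, a ≤ α i := by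
  simp [idx, Fintype.mem_piFinset]

theorem sum_idx (n K a : ℕ) (hKa : a ≤ K) (y : Fin n → ℝ) :
    ∑ α ∈ idx n K a, ∏ i, (y i) ^ (α i) / ((α i).factorial : ℝ) =
      (∏ i, ex K (y i)) - ∏ i, ex a (y i) := by
  have h1 : ∀ L, (∏ i, ex L (y i)) = ∑ α ∈ Fintype.piFinset fun _ : Fin n => range L,
      ∏ i, (y i) ^ (α i) / ((α i).factorial : ℝ) := by
    intro L
    unfold ex
    rw [Finset.prod_univ_sum]
  rw [h1 K, h1 a, eq_sub_iff_add_eq]
  have h2 : (Fintype.piFinset fun _ : Fin n => range a) =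
      (Fintype.piFinset fun _ : Fin n => range K).filter fun α => ¬ ∃ i, a ≤ α i := by
    ext α
    simp only [Fintype.mem_piFinset, Finset.mem_range, Finset.mem_filter, not_exists, not_le]
    exact ⟨fun h => ⟨fun i => (h i).trans_le hKa, h⟩, fun h => h.2⟩
  rw [h2, idx, Finset.sum_filter_add_sum_filter_not]

theorem exists_trunc (ρ τ : ℝ) (hτ : 0 < τ) :
    ∃ K₀ : ℕ, ∀ K ≥ K₀, ∀ y, 0 ≤ y → y ≤ ρ → Real.exp y * (1 - τ) ≤ ex K y := by
  have hs : HasSum (fun k : ℕ => ρ ^ k / (k.factorial : ℝ)) (Real.exp ρ) := by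
    have := NormedSpace.expSeries_div_hasSum_exp (𝔸 := ℝ) ρ
    rwa [← Real.exp_eq_exp_ℝ] at this
  have hlim := hs.tendsto_sum_nat
  obtain ⟨K₀, hK₀⟩ := (Metric.tendsto_atTop.1 hlim) τ hτ
  refine ⟨K₀, fun K hK y hy0 hyρ => ?_⟩
  have h1 : Real.exp ρ - ex K ρ < τ := by
    have := hK₀ K hK
    rw [Real.dist_eq, abs_sub_comm] at this
    exact (le_abs_self _).trans_lt this
  have hy : HasSum (fun k : ℕ => y ^ k / (k.factorial : ℝ)) (Real.exp y) := by
    have := NormedSpace.expSeries_div_hasSum_exp (𝔸 := ℝ) y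
    rwa [← Real.exp_eq_exp_ℝ] at this
  -- the tails are monotone
  have h2 : Real.exp y - ex K y ≤ Real.exp ρ - ex K ρ := by
    have e1 := (hasSum_nat_add_iff' K).2 hy
    have e2 := (hasSum_nat_add_iff' K).2 hs
    refine hasSum_le (fun k => ?_) e1 e2
    gcongr
  have h3 : 1 ≤ Real.exp y := Real.one_le_exp hy0
  nlinarith

end Pool.Agent.H720R2
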