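import Mathlib

set_option autoImplicit false

open MeasureTheory Complex Set Function
open scoped Real

namespace Pool.Agent.H720R2

variable {n : ℕ}

/-- if all integrals over the circles in the `i`-th coordinate vanish, the torus integral vanishes -/
theorem torusIntegral_eq_zero_of_circle {f : (Fin (n + 1) → ℂ) → ℂ} {c : Fin (n + 1) → ℂ}
    {R : Fin (n + 1) → ℝ} (hf : TorusIntegrable f c R) (i : Fin (n + 1))
    (h0 : ∀ Θ : Fin n → ℝ, (∮ x in C(c i, R i),
      f (i.insertNth x (torusMap (c ∘ i.succAbove) (R ∘ i.succAbove) Θ))) = 0) :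
    torusIntegral f c R = 0 := by
  set e : ℝ × (Fin n → ℝ) ≃ᵐ (Fin (n + 1) → ℝ) :=
    (MeasurableEquiv.piFinSuccAbove (fun _ => ℝ) i).symm
  have hem : MeasurePreserving e :=
    (volume_preserving_piFinSuccAbove (fun _ : Fin (n + 1) => ℝ) i).symm _
  have heπ : (e ⁻¹' Icc 0 fun _ => 2 * π) =
      Icc 0 (2 * π) ×ˢ Icc (0 : Fin n → ℝ) fun _ => 2 * π :=
    ((Fin.insertNthOrderIso (fun _ => ℝ) i).preimage_Icc _ _).trans (Icc_prod_eq _ _)
  have hint : IntegrableOn (fun x : ℝ × (Fin n → ℝ) =>
      (∏ j, (R j : ℂ) * exp (e x j * I) * I) • f (torusMap c R (e x)))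
      (Icc 0 (2 * π) ×ˢ Icc (0 : Fin n → ℝ) fun _ => 2 * π) volume := by
    have := hf.function_integrable
    rwa [← hem.integrableOn_comp_preimage e.measurableEmbedding, heπ] at this
  rw [torusIntegral, ← hem.map_eq, setIntegral_map_equiv, heπ, Measure.volume_eq_prod,
    ← setIntegral_prod_swap, setIntegral_prod]
  · refine setIntegral_eq_zero_of_forall_eq_zero fun Θ hΘ => ?_
    have h1 := h0 Θ
    rw [circleIntegral_def_Icc] at h1
    have h2 : ∀ θ : ℝ, (∏ j, (R j : ℂ) * exp (e (θ, Θ) j * I) * I) • f (torusMap c R (e (θ, Θ))) =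
        (∏ j, (R (i.succAbove j) : ℂ) * exp (Θ j * I) * I) * (deriv (circleMap (c i) (R i)) θ •
          f (i.insertNth (circleMap (c i) (R i) θ)
            (torusMap (c ∘ i.succAbove) (R ∘ i.succAbove) Θ))) := by
      intro θ
      have h3 : torusMap c R (e (θ, Θ)) = i.insertNth (circleMap (c i) (R i) θ)
            (torusMap (c ∘ i.succAbove) (R ∘ i.succAbove) Θ) := by
        funext j
        refine i.succAboveCases ?_ (fun j => ?_) j
        · simp [torusMap, e, circleMap, Fin.insertNth_apply_same]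
        · simp [torusMap, e, Fin.insertNth_apply_succAbove]
      rw [h3, i.prod_univ_succAbove]
      simp only [e, MeasurableEquiv.piFinSuccAbove_symm_apply, Fin.insertNthEquiv,
        Equiv.coe_fn_mk, i.insertNth_apply_same, i.insertNth_apply_succAbove, deriv_circleMap,
        circleMap_zero, smul_eq_mul]
      ring
    simp only [Prod.swap_prod_mk]
    simp_rw [h2]
    rw [integral_const_mul, h1, mul_zero]
  · exact hint.swap
 
end Pool.Agent.H720R2
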