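import Mathlib
import Pool.Agent.H720R2.Torus

set_option autoImplicit false

open MeasureTheory Complex Set Function Metric
open scoped Real

namespace Pool.Agent.H720R2

variable {n : ℕ}

/-- product of the coordinates of `z - p` -/
noncomputable def W (p z : Fin n → ℂ) : ℂ := ∏ j, (z j - p j)

theorem continuous_torusMap (p : Fin n → ℂ) (r : ℝ) : Continuous (torusMap p fun _ => r) := by
  unfold torusMap; fun_prop

theorem torusMap_sub (p : Fin n → ℂ) (r : ℝ) (θ : Fin n → ℝ) (j : Fin n) :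
    torusMap p (fun _ => r) θ j - p j = r * exp (θ j * I) := by
  simp [torusMap]

theorem norm_torusMap_sub (p : Fin n → ℂ) {r : ℝ} (hr : 0 ≤ r) (θ : Fin n → ℝ) (j : Fin n) :
    ‖torusMap p (fun _ => r) θ j - p j‖ = r := by
  rw [torusMap_sub, norm_mul, Complex.norm_exp_ofReal_mul_I, mul_one, Complex.norm_real,
    Real.norm_of_nonneg hr]

theorem torusMap_mem_closedBall (p : Fin n → ℂ) {r : ℝ} (hr : 0 ≤ r) (θ : Fin n → ℝ) :
    torusMap p (fun _ => r) θ ∈ Metric.closedBall p r := by
  rw [Metric.mem_closedBall, dist_pi_le_iff hr]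
  intro j
  rw [dist_eq_norm, norm_torusMap_sub p hr]

theorem norm_W_torusMap (p : Fin n → ℂ) {r : ℝ} (hr : 0 ≤ r) (θ : Fin n → ℝ) :
    ‖W p (torusMap p (fun _ => r) θ)‖ = r ^ n := by
  rw [W, norm_prod]
  simp [norm_torusMap_sub p hr]

theorem W_torusMap_ne (p : Fin n → ℂ) {r : ℝ} (hr : 0 < r) (θ : Fin n → ℝ) :
    W p (torusMap p (fun _ => r) θ) ≠ 0 := by
  rw [← norm_pos_iff, norm_W_torusMap p hr.le]
  positivity

theorem continuous_W_torusMap (p : Fin n → ℂ) (r : ℝ) :
    Continuous fun θ => W p (torusMap p (fun _ => r) θ) := by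
  unfold W
  exact continuous_finset_prod _ fun j _ =>
    ((continuous_apply j).comp (continuous_torusMap p r)).sub continuous_const

theorem torusIntegrable_of_continuous {p : Fin n → ℂ} {r : ℝ} {F : (Fin n → ℂ) → ℂ}
    (hF : Continuous fun θ => F (torusMap p (fun _ => r) θ)) :
    TorusIntegrable F p fun _ => r :=
  hF.continuousOn.integrableOn_compact isCompact_Icc

/-- the coefficient functional: Taylor coefficient at `p` of `F` at the multi-index `(k,…,k)` -/
noncomputable def Lc (p : Fin n → ℂ) (r : ℝ) (k : ℕ) (F : (Fin n → ℂ) → ℂ) : ℂ :=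
  ((2 * π * I) ^ n)⁻¹ * torusIntegral (fun z => F z * ((W p z)⁻¹) ^ (k + 1)) p (fun _ => r)

theorem cont_aux {p : Fin n → ℂ} {r : ℝ} (hr : 0 < r) {F : (Fin n → ℂ) → ℂ} (k : ℕ)
    (hF : Continuous fun θ => F (torusMap p (fun _ => r) θ)) :
    Continuous fun θ => F (torusMap p (fun _ => r) θ) *
      ((W p (torusMap p (fun _ => r) θ))⁻¹) ^ (k + 1) :=
  hF.mul (((continuous_W_torusMap p r).inv₀ fun θ => W_torusMap_ne p hr θ).pow _)

theorem Lc_add {p : Fin n → ℂ} {r : ℝ} (hr : 0 < r) (k : ℕ) {F G : (Fin n → ℂ) → ℂ}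
    (hF : Continuous fun θ => F (torusMap p (fun _ => r) θ))
    (hG : Continuous fun θ => G (torusMap p (fun _ => r) θ)) :
    Lc p r k (fun z => F z + G z) = Lc p r k F + Lc p r k G := by
  unfold Lc
  rw [← mul_add, ← torusIntegral_add (torusIntegrable_of_continuous (cont_aux hr k hF))
    (torusIntegrable_of_continuous (cont_aux hr k hG))]
  simp only [add_mul]

theorem Lc_const_mul {p : Fin n → ℂ} {r : ℝ} (k : ℕ) (a : ℂ) (F : (Fin n → ℂ) → ℂ) :
    Lc p r k (fun z => a * F z) = a * Lc p r k F := by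
  unfold Lc
  simp only [mul_assoc, torusIntegral_const_mul]
  ring

theorem Lc_zero {p : Fin n → ℂ} {r : ℝ} (k : ℕ) : Lc p r k (fun _ => (0 : ℂ)) = 0 := by
  have := Lc_const_mul (p := p) (r := r) k 0 (fun _ => 0)
  simpa using this

theorem Lc_sum {ι : Type*} {p : Fin n → ℂ} {r : ℝ} (hr : 0 < r) (k : ℕ) (s : Finset ι)
    {F : ι → (Fin n → ℂ) → ℂ}
    (hF : ∀ i ∈ s, Continuous fun θ => F i (torusMap p (fun _ => r) θ)) :
    Lc p r k (fun z => ∑ i ∈ s, F i z) = ∑ i ∈ s, Lc p r k (F i) := by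
  classical
  induction s using Finset.induction_on with
  | empty => simpa using Lc_zero k
  | insert a s ha ih =>
    have hs : ∀ i ∈ s, Continuous fun θ => F i (torusMap p (fun _ => r) θ) :=
      fun i hi => hF i (Finset.mem_insert_of_mem hi)
    have h1 := Lc_add hr k (F := F a) (G := fun z => ∑ i ∈ s, F i z)
      (hF a (Finset.mem_insert_self _ _)) (continuous_finset_sum s hs)
    simp only [Finset.sum_insert ha]
    rw [h1, ih hs]

theorem Lc_bound {p : Fin n → ℂ} {r : ℝ} (hr : 0 < r) (k : ℕ) {F : (Fin n → ℂ) → ℂ} {M : ℝ}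
    (hF : ∀ θ, ‖F (torusMap p (fun _ => r) θ)‖ ≤ M) :
    ‖Lc p r k F‖ ≤ M / (r ^ n) ^ k := by
  have h1 : ∀ θ, ‖F (torusMap p (fun _ => r) θ) *
      ((W p (torusMap p (fun _ => r) θ))⁻¹) ^ (k + 1)‖ ≤ M / (r ^ n) ^ (k + 1) := by
    intro θ
    rw [norm_mul, norm_pow, norm_inv, norm_W_torusMap p hr.le, inv_pow, ← div_eq_mul_inv]
    gcongr
    exact hF θ
  have h2 := norm_torusIntegral_le_of_norm_le_const (f := fun z => F z * ((W p z)⁻¹) ^ (k + 1))
    (c := p) (R := fun _ => r) h1
  unfold Lc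
  rw [norm_mul, norm_inv, norm_pow]
  have h3 : ‖(2 * π * I : ℂ)‖ = 2 * π := by
    simp [abs_of_pos Real.pi_pos]
  rw [h3]
  have hπ : (0 : ℝ) < (2 * π) ^ n := by positivity
  rw [inv_mul_le_iff₀ hπ]
  refine h2.trans (le_of_eq ?_)
  simp only [Finset.prod_const, Finset.card_univ, Fintype.card_fin, abs_of_pos hr]
  have : (r ^ n) ≠ 0 := by positivity
  rw [pow_succ]
  field_simp

theorem Lc_congr {p : Fin n → ℂ} {r : ℝ} (hr : 0 < r) (k : ℕ) {F G : (Fin n → ℂ) → ℂ}
    (h : ∀ θ, F (torusMap p (fun _ => r) θ) = G (torusMap p (fun _ => r) θ)) :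
    Lc p r k F = Lc p r k G := by
  unfold Lc torusIntegral
  simp only [h]

theorem insertNth_torusMap_mem {m : ℕ} {p : Fin (m + 1) → ℂ} {r : ℝ} (hr : 0 ≤ r)
    (i : Fin (m + 1)) (Θ : Fin m → ℝ) {x : ℂ} (hx : x ∈ Metric.closedBall (p i) r) :
    i.insertNth x (torusMap (p ∘ i.succAbove) (fun _ => r) Θ) ∈ Metric.closedBall p r := by
  rw [Metric.mem_closedBall, dist_pi_le_iff hr]
  intro j
  refine i.succAboveCases ?_ (fun j => ?_) j
  · simpa using hx
  · have := norm_torusMap_sub (p ∘ i.succAbove) hr Θ j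
    simp only [Fin.insertNth_apply_succAbove, dist_eq_norm]
    exact this.le

/-- the coefficient at `(k,…,k)` of a multiple of `(z_i - p_i)^a` vanishes for `k < a` -/
theorem Lc_mul_pow_eq_zero {p : Fin n → ℂ} {r : ℝ} (hr : 0 < r) {k a : ℕ} (hka : k < a)
    (i : Fin n) {U : Set (Fin n → ℂ)} (hU : IsOpen U) (hpU : Metric.closedBall p r ⊆ U)
    {G : (Fin n → ℂ) → ℂ} (hG : DifferentiableOn ℂ G U) :
    Lc p r k (fun z => (z i - p i) ^ a * G z) = 0 := by
  obtain _ | m := n
  · exact i.elim0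
  have hGc : Continuous fun θ => G (torusMap p (fun _ => r) θ) := by
    refine hG.continuousOn.comp_continuous (continuous_torusMap p r) fun θ =>
      hpU (torusMap_mem_closedBall p hr.le θ)
  unfold Lc
  rw [mul_eq_zero]
  right
  apply torusIntegral_eq_zero_of_circle _ i
  · intro Θ
    have hcirc : ∀ x ∈ sphere (p i) r,
        ((i.insertNth x (torusMap (p ∘ i.succAbove) (fun _ => r) Θ) : Fin (m + 1) → ℂ) i - p i) ^ a *
          G (i.insertNth x (torusMap (p ∘ i.succAbove) (fun _ => r) Θ)) *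
          ((W p (i.insertNth x (torusMap (p ∘ i.succAbove) (fun _ => r) Θ)))⁻¹) ^ (k + 1) =
        (x - p i) ^ (a - (k + 1)) * (G (i.insertNth x (torusMap (p ∘ i.succAbove) (fun _ => r) Θ)) *
          ((W (p ∘ i.succAbove) (torusMap (p ∘ i.succAbove) (fun _ => r) Θ))⁻¹) ^ (k + 1)) := by
      intro x hx
      have hx0 : x - p i ≠ 0 := by
        rw [← norm_pos_iff]
        rw [mem_sphere_iff_norm] at hx
        rw [hx]; exact hr
      have hW : W p (i.insertNth x (torusMap (p ∘ i.succAbove) (fun _ => r) Θ)) =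
          (x - p i) * W (p ∘ i.succAbove) (torusMap (p ∘ i.succAbove) (fun _ => r) Θ) := by
        unfold W
        rw [i.prod_univ_succAbove]
        simp
      rw [hW, Fin.insertNth_apply_same, mul_inv, mul_pow]
      have : (x - p i) ^ a = (x - p i) ^ (a - (k + 1)) * (x - p i) ^ (k + 1) := by
        rw [← pow_add]; congr 1; omega
      have h6 : (x - p i) ^ (k + 1) * ((x - p i)⁻¹) ^ (k + 1) = 1 := by
        rw [← mul_pow, mul_inv_cancel₀ hx0, one_pow]
      rw [this]
      linear_combination ((x - p i) ^ (a - (k + 1)) *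
        (G (i.insertNth x (torusMap (p ∘ i.succAbove) (fun _ => r) Θ)) *
          ((W (p ∘ i.succAbove) (torusMap (p ∘ i.succAbove) (fun _ => r) Θ))⁻¹) ^ (k + 1))) * h6
    have h1 := circleIntegral.integral_congr hr.le (f := fun x =>
        ((i.insertNth x (torusMap (p ∘ i.succAbove) (fun _ => r) Θ) : Fin (m + 1) → ℂ) i - p i) ^ a *
          G (i.insertNth x (torusMap (p ∘ i.succAbove) (fun _ => r) Θ)) *
          ((W p (i.insertNth x (torusMap (p ∘ i.succAbove) (fun _ => r) Θ)))⁻¹) ^ (k + 1))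
          (g := fun x => (x - p i) ^ (a - (k + 1)) *
          (G (i.insertNth x (torusMap (p ∘ i.succAbove) (fun _ => r) Θ)) *
          ((W (p ∘ i.succAbove) (torusMap (p ∘ i.succAbove) (fun _ => r) Θ))⁻¹) ^ (k + 1)))
          (c := p i) (R := r) hcirc
    refine Eq.trans h1 ?_
    apply DiffContOnCl.circleIntegral_eq_zero hr.le
    have hins : Differentiable ℂ fun x : ℂ =>
        (i.insertNth x (torusMap (p ∘ i.succAbove) (fun _ => r) Θ) : Fin (m + 1) → ℂ) := by
      rw [differentiable_pi]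
      intro j
      refine i.succAboveCases ?_ (fun j => ?_) j
      · simp only [Fin.insertNth_apply_same]; exact differentiable_id
      · simp only [Fin.insertNth_apply_succAbove]; exact differentiable_const _
    have hd : ∀ x ∈ Metric.closedBall (p i) r, DifferentiableAt ℂ (fun x =>
        (x - p i) ^ (a - (k + 1)) *
          (G (i.insertNth x (torusMap (p ∘ i.succAbove) (fun _ => r) Θ)) *
          ((W (p ∘ i.succAbove) (torusMap (p ∘ i.succAbove) (fun _ => r) Θ))⁻¹) ^ (k + 1))) x := by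
      intro x hx
      have h2 : DifferentiableAt ℂ (fun x =>
          G (i.insertNth x (torusMap (p ∘ i.succAbove) (fun _ => r) Θ))) x := by
        have h3 := (hG.differentiableAt (hU.mem_nhds
          (hpU (insertNth_torusMap_mem hr.le i Θ hx))))
        exact h3.comp x (hins x)
      exact (((differentiableAt_id.sub_const _).pow _).mul (h2.mul_const _))
    refine DifferentiableOn.diffContOnCl fun x hx => (hd x ?_).differentiableWithinAt
    rwa [closure_ball _ hr.ne'] at hx
  · refine torusIntegrable_of_continuous (cont_aux (F := fun z => (z i - p i) ^ a * G z) hr k ?_)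
    refine Continuous.mul ?_ hGc
    exact (((continuous_apply i).comp (continuous_torusMap p r)).sub continuous_const).pow a

/-- `L_k(W^k) = 1` -/
theorem Lc_W_pow_self {p : Fin n → ℂ} {r : ℝ} (hr : 0 < r) (k : ℕ) :
    Lc p r k (fun z => W p z ^ k) = 1 := by
  unfold Lc torusIntegral
  have h1 : ∀ θ : Fin n → ℝ, ((∏ j, (r : ℂ) * exp (θ j * I) * I : ℂ)) •
      (W p (torusMap p (fun _ => r) θ) ^ k * ((W p (torusMap p (fun _ => r) θ))⁻¹) ^ (k + 1)) =
      I ^ n := by
    intro θ
    have hne := W_torusMap_ne p hr θ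
    have h2 : W p (torusMap p (fun _ => r) θ) ^ k *
        ((W p (torusMap p (fun _ => r) θ))⁻¹) ^ (k + 1) =
        (W p (torusMap p (fun _ => r) θ))⁻¹ := by
      rw [pow_succ, ← mul_assoc, ← mul_pow, mul_inv_cancel₀ hne, one_pow, one_mul]
    rw [h2, Finset.prod_mul_distrib, Finset.prod_const, Finset.card_univ, Fintype.card_fin]
    have h3 : (∏ j, (r : ℂ) * exp (θ j * I)) = W p (torusMap p (fun _ => r) θ) := by
      unfold W
      exact Finset.prod_congr rfl fun j _ => (torusMap_sub p r θ j).symm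
    rw [h3, smul_eq_mul]
    field_simp
  simp_rw [h1]
  rw [setIntegral_const]
  rw [Measure.real, Pi.zero_def, Real.volume_Icc_pi_toReal (fun _ => Real.two_pi_pos.le)]
  simp only [sub_zero, Finset.prod_const, Finset.card_univ, Fintype.card_fin]
  rw [Complex.real_smul]
  push_cast
  rw [mul_pow]
  have : (I : ℂ) ^ n ≠ 0 := pow_ne_zero _ I_ne_zero
  have h4 : ((2 : ℂ) * π) ^ n ≠ 0 := pow_ne_zero _ (by
    simp [Real.pi_ne_zero])
  field_simp

/-- `L_k(W^l) = 0` for `l ≠ k` (for `n ≥ 1`) -/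
theorem Lc_W_pow_ne {p : Fin n → ℂ} {r : ℝ} (hr : 0 < r) {k l : ℕ} (hkl : l ≠ k)
    (hn : 0 < n) : Lc p r k (fun z => W p z ^ l) = 0 := by
  obtain _ | m := n
  · exact absurd hn (lt_irrefl _)
  rcases lt_or_gt_of_ne hkl with h | h
  · unfold Lc
    rw [mul_eq_zero]
    right
    apply torusIntegral_eq_zero_of_circle _ 0
    · intro Θ
      have hcirc : ∀ x ∈ sphere (p 0) r,
          (W p (Fin.insertNth 0 x (torusMap (p ∘ Fin.succAbove 0) (fun _ => r) Θ))) ^ l *
            ((W p (Fin.insertNth 0 x (torusMap (p ∘ Fin.succAbove 0) (fun _ => r) Θ)))⁻¹) ^ (k + 1) =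
          (((W (p ∘ Fin.succAbove 0) (torusMap (p ∘ Fin.succAbove 0) (fun _ => r) Θ)))⁻¹) ^ (k + 1 - l)
            * (x - p 0) ^ (-((k + 1 - l : ℕ) : ℤ)) := by
        intro x hx
        have hx0 : x - p 0 ≠ 0 := by
          rw [← norm_pos_iff]
          rw [mem_sphere_iff_norm] at hx
          rw [hx]; exact hr
        have hW : W p (Fin.insertNth 0 x (torusMap (p ∘ Fin.succAbove 0) (fun _ => r) Θ)) =
            (x - p 0) * W (p ∘ Fin.succAbove 0) (torusMap (p ∘ Fin.succAbove 0) (fun _ => r) Θ) := by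
          unfold W
          rw [Fin.prod_univ_succAbove _ 0]
          simp
        have hWne : W (p ∘ Fin.succAbove 0) (torusMap (p ∘ Fin.succAbove 0) (fun _ => r) Θ) ≠ 0 :=
          W_torusMap_ne _ hr Θ
        rw [hW]
        have h5 : ∀ y : ℂ, y ≠ 0 → y ^ l * (y⁻¹) ^ (k + 1) = (y⁻¹) ^ (k + 1 - l) := by
          intro y hy
          have : (y⁻¹) ^ (k + 1) = (y⁻¹) ^ l * (y⁻¹) ^ (k + 1 - l) := by
            rw [← pow_add]; congr 1; omega
          rw [this, ← mul_assoc, ← mul_pow, mul_inv_cancel₀ hy, one_pow, one_mul]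
        rw [h5 _ (mul_ne_zero hx0 hWne), mul_inv, mul_pow, zpow_neg, zpow_natCast, inv_pow (x - p 0)]
        ring
      have h1 := circleIntegral.integral_congr hr.le (c := p 0) (R := r) hcirc
      refine Eq.trans h1 ?_
      rw [circleIntegral.integral_const_mul]
      rw [circleIntegral.integral_sub_zpow_of_ne, mul_zero]
      omega
    · exact torusIntegrable_of_continuous
        (cont_aux (F := fun z => W p z ^ l) hr k ((continuous_W_torusMap p r).pow l))
  · have h1 : Lc p r k (fun z => W p z ^ l) = Lc p r k (fun z => (z 0 - p 0) ^ l *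
        (∏ j : Fin m, (z j.succ - p j.succ)) ^ l) := by
      apply Lc_congr hr
      intro θ
      unfold W
      rw [Fin.prod_univ_succ, mul_pow]
    rw [h1]
    refine Lc_mul_pow_eq_zero hr h 0 isOpen_univ (subset_univ _) ?_
    refine Differentiable.differentiableOn ?_
    have : ∀ j : Fin m, Differentiable ℂ fun z : Fin (m + 1) → ℂ => z j.succ - p j.succ :=
      fun j => by fun_prop
    fun_prop

end Pool.Agent.H720R2
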