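import Mathlib
import Pool.Agent.H720R2.Lc

set_option autoImplicit false

open MeasureTheory Complex Set Function Metric
open scoped Real

namespace Pool.Agent.H720R2

variable {n : ℕ}

theorem differentiable_W (p : Fin n → ℂ) : Differentiable ℂ (W p) := by
  unfold W
  have : ∀ j : Fin n, Differentiable ℂ fun z : Fin n → ℂ => z j - p j := fun j => by fun_prop
  fun_prop

theorem continuous_comp_torusMap {p : Fin n → ℂ} {r : ℝ} (hr : 0 < r) {U : Set (Fin n → ℂ)}
    (hpU : closedBall p r ⊆ U) {G : (Fin n → ℂ) → ℂ} (hG : DifferentiableOn ℂ G U) :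
    Continuous fun θ => G (torusMap p (fun _ => r) θ) :=
  hG.continuousOn.comp_continuous (continuous_torusMap p r) fun θ =>
      hpU (torusMap_mem_closedBall p hr.le θ)

theorem Lc_W_mul_succ {p : Fin n → ℂ} {r : ℝ} (hr : 0 < r) (k : ℕ) (F : (Fin n → ℂ) → ℂ) :
    Lc p r (k + 1) (fun z => W p z * F z) = Lc p r k F := by
  unfold Lc torusIntegral
  congr 1
  congr 1
  funext θ
  have hne := W_torusMap_ne p hr θ
  congr 1
  show W p _ * F _ * ((W p _)⁻¹) ^ (k + 1 + 1) = F _ * ((W p _)⁻¹) ^ (k + 1)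
  rw [pow_succ _ (k + 1)]
  field_simp

theorem Lc_W_mul_zero {p : Fin n → ℂ} {r : ℝ} (hr : 0 < r) (hn : 0 < n) {U : Set (Fin n → ℂ)}
    (hU : IsOpen U) (hpU : closedBall p r ⊆ U) {F : (Fin n → ℂ) → ℂ}
    (hF : DifferentiableOn ℂ F U) :
    Lc p r 0 (fun z => W p z * F z) = 0 := by
  obtain _ | m := n
  · exact absurd hn (lt_irrefl _)
  have h1 : Lc p r 0 (fun z => W p z * F z) = Lc p r 0 (fun z => (z 0 - p 0) ^ 1 *
      ((∏ j : Fin m, (z j.succ - p j.succ)) * F z)) := by
    apply Lc_congr hr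
    intro θ
    unfold W
    rw [Fin.prod_univ_succ]
    ring
  rw [h1]
  refine Lc_mul_pow_eq_zero hr one_pos 0 hU hpU ?_
  have : ∀ j : Fin m, Differentiable ℂ fun z : Fin (m + 1) → ℂ => z j.succ - p j.succ :=
      fun j => by fun_prop
  have h2 : Differentiable ℂ fun z : Fin (m + 1) → ℂ => ∏ j : Fin m, (z j.succ - p j.succ) := by
    fun_prop
  exact h2.differentiableOn.mul hF

/-- lower bounds for the coefficients of `h` when those of `(ε - W)^m h` are known -/
theorem key_rec {p : Fin n → ℂ} {r : ℝ} (hr : 0 < r) (hn : 0 < n) {U : Set (Fin n → ℂ)}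
    (hU : IsOpen U) (hpU : closedBall p r ⊆ U) {ε : ℝ} (hε : 0 < ε) (a : ℕ) (c : ℂ) (m : ℕ) :
    ∀ {h : (Fin n → ℂ) → ℂ}, DifferentiableOn ℂ h U →
    (∀ k < a, c * Lc p r k (fun z => ((ε : ℂ) - W p z) ^ m * h z) = if k = 0 then 1 else 0) →
    ∃ x : ℕ → ℝ, ∀ k < a, c * Lc p r k h = (x k : ℂ) ∧ 0 ≤ x k ∧
      ((k = 0 ∨ 1 ≤ m) → (ε⁻¹) ^ (k + m) ≤ x k) := by
  induction m with
  | zero =>
    intro h _ hk
    refine ⟨fun k => if k = 0 then 1 else 0, fun k hka => ⟨?_, ?_, ?_⟩⟩
    · have := hk k hka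
      simp only [pow_zero, one_mul] at this
      rw [this]
      by_cases h0 : k = 0 <;> simp [h0]
    · dsimp only
      split_ifs <;> norm_num
    · rintro (rfl | h1)
      · simp
      · omega
  | succ m ih =>
    intro h hh hk
    have hh' : DifferentiableOn ℂ (fun z => ((ε : ℂ) - W p z) * h z) U :=
      (((differentiable_W p).const_sub _).differentiableOn).mul hh
    obtain ⟨x, hx⟩ := ih hh' (by
      intro k hka
      rw [← hk k hka]
      congr 2
      funext z
      ring)
    have hch : Continuous fun θ => h (torusMap p (fun _ => r) θ) :=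
      continuous_comp_torusMap hr hpU hh
    have hcW : Continuous fun θ => W p (torusMap p (fun _ => r) θ) * h (torusMap p (fun _ => r) θ) :=
      (continuous_W_torusMap p r).mul hch
    have hrec : ∀ k, Lc p r k (fun z => ((ε : ℂ) - W p z) * h z) =
        ε * Lc p r k h - Lc p r k (fun z => W p z * h z) := by
      intro k
      have h1 := Lc_add hr k (F := fun z => (ε : ℂ) * h z) (G := fun z => (-1 : ℂ) * (W p z * h z))
        (continuous_const.mul hch) (continuous_const.mul hcW)
      rw [Lc_const_mul, Lc_const_mul] at h1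
      rw [show (fun z => ((ε : ℂ) - W p z) * h z) =
        fun z => (ε : ℂ) * h z + (-1 : ℂ) * (W p z * h z) from by funext z; ring, h1]
      ring
    have hεc : (ε : ℂ) ≠ 0 := by exact_mod_cast hε.ne'
    -- recursive definition
    let y : ℕ → ℝ := fun k => Nat.rec (x 0 / ε) (fun k yk => (x (k + 1) + yk) / ε) k
    have hy0 : y 0 = x 0 / ε := rfl
    have hys : ∀ k, y (k + 1) = (x (k + 1) + y k) / ε := fun k => rfl
    refine ⟨y, ?_⟩
    intro k
    induction k with
    | zero =>
      intro hka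
      obtain ⟨e1, e2, e3⟩ := hx 0 hka
      rw [hrec 0, Lc_W_mul_zero hr hn hU hpU hh] at e1
      refine ⟨?_, ?_, ?_⟩
      · rw [hy0]; push_cast
        rw [← e1]
        field_simp
        ring
      · rw [hy0]; positivity
      · intro _
        rw [hy0]
        have := e3 (Or.inl rfl)
        rw [le_div_iff₀ hε]
        calc (ε⁻¹) ^ (0 + (m + 1)) * ε = (ε⁻¹) ^ (0 + m) * (ε⁻¹ * ε) := by ring
          _ = (ε⁻¹) ^ (0 + m) := by rw [inv_mul_cancel₀ hε.ne', mul_one]
          _ ≤ _ := this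
    | succ k ihk =>
      intro hka
      obtain ⟨f1, f2, f3⟩ := ihk (by omega)
      obtain ⟨e1, e2, e3⟩ := hx (k + 1) hka
      rw [hrec (k + 1), Lc_W_mul_succ hr k h] at e1
      refine ⟨?_, ?_, ?_⟩
      · rw [hys]; push_cast
        rw [← e1, ← f1]
        field_simp
        ring
      · rw [hys]; positivity
      · intro _
        rw [hys]
        have := f3 (Or.inr (by omega))
        rw [le_div_iff₀ hε]
        calc (ε⁻¹) ^ (k + 1 + (m + 1)) * ε = (ε⁻¹) ^ (k + (m + 1)) * (ε⁻¹ * ε) := by ring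
          _ = (ε⁻¹) ^ (k + (m + 1)) := by rw [inv_mul_cancel₀ hε.ne', mul_one]
          _ ≤ y k := this
          _ ≤ _ := by linarith

end Pool.Agent.H720R2
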