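import Mathlib

set_option autoImplicit false

open Complex Set Function Metric
open scoped Real

namespace Pool.Agent.H720R2

/-- the conformal map of the unit disc onto a strip of half-width at most `c π` -/
noncomputable def th (c : ℝ) (t : ℂ) : ℂ := c * (log (1 + t) - log (1 - t))

theorem add_mem_slit {t : ℂ} (ht : ‖t‖ < 1) : 1 + t ∈ slitPlane := by
  refine Or.inl ?_
  have := (abs_lt.1 (lt_of_le_of_lt (abs_re_le_norm t) ht)).1
  simp; linarith

theorem sub_mem_slit {t : ℂ} (ht : ‖t‖ < 1) : 1 - t ∈ slitPlane := by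
  refine Or.inl ?_
  have := (abs_lt.1 (lt_of_le_of_lt (abs_re_le_norm t) ht)).2
  simp; linarith

theorem differentiableOn_th (c : ℝ) : DifferentiableOn ℂ (th c) (ball 0 1) := by
  intro t ht
  rw [mem_ball_zero_iff] at ht
  refine DifferentiableAt.differentiableWithinAt ?_
  unfold th
  refine DifferentiableAt.const_mul (DifferentiableAt.sub ?_ ?_) _
  · exact (differentiableAt_id.const_add 1).clog (add_mem_slit ht)
  · exact (differentiableAt_id.const_sub 1).clog (sub_mem_slit ht)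

theorem abs_im_th_le {c : ℝ} (hc : 0 ≤ c) {t : ℂ} (ht : ‖t‖ < 1) : |(th c t).im| ≤ c * π := by
  unfold th
  rw [Complex.re_ofReal_mul |> fun _ => Complex.im_ofReal_mul, abs_mul, abs_of_nonneg hc]
  refine mul_le_mul_of_nonneg_left ?_ hc
  rw [sub_im, log_im, log_im]
  have h1 : |arg (1 + t)| ≤ π / 2 := by
    rw [abs_arg_le_pi_div_two_iff]
    have := (abs_lt.1 (lt_of_le_of_lt (abs_re_le_norm t) ht)).1
    simp; linarith
  have h2 : |arg (1 - t)| ≤ π / 2 := by
    rw [abs_arg_le_pi_div_two_iff]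
    have := (abs_lt.1 (lt_of_le_of_lt (abs_re_le_norm t) ht)).2
    simp; linarith
  calc |arg (1 + t) - arg (1 - t)| ≤ |arg (1 + t)| + |arg (1 - t)| := abs_sub _ _
    _ ≤ π := by linarith

theorem th_zero (c : ℝ) : th c 0 = 0 := by simp [th]

theorem norm_sq_cos_add_sin (z : ℂ) :
    ‖cos z‖ ^ 2 + ‖sin z‖ ^ 2 = Real.cosh (2 * z.im) := by
  have h1 : ∀ w : ℂ, ‖w‖ ^ 2 = w.re ^ 2 + w.im ^ 2 := fun w => by
    rw [← Complex.normSq_eq_norm_sq, Complex.normSq_apply]; ring
  rw [h1, h1]
  conv_lhs => rw [← Complex.re_add_im z]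
  rw [Complex.cos_add, Complex.sin_add]
  simp only [Complex.cos_mul_I, Complex.sin_mul_I]
  rw [← Complex.ofReal_cos, ← Complex.ofReal_sin, ← Complex.ofReal_cosh, ← Complex.ofReal_sinh]
  simp only [Complex.sub_re, Complex.mul_re, Complex.ofReal_re, Complex.ofReal_im, Complex.I_re,
    Complex.I_im, Complex.sub_im, Complex.mul_im, Complex.add_re, Complex.add_im]
  rw [Real.cosh_two_mul]
  have hs := Real.sin_sq_add_cos_sq z.re
  linear_combination (Real.cosh z.im ^ 2 + Real.sinh z.im ^ 2) * hs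

end Pool.Agent.H720R2
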