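import Mathlib

set_option autoImplicit false

open Complex Set Function Metric
open scoped Real Topology

namespace Pool.Agent.H720R2

/-- remainders of the expansion of `1 / A` at `0` -/
noncomputable def Rseq (A : ℂ → ℂ) : ℕ → ℂ → ℂ
  | 0 => fun _ => -1
  | k + 1 => dslope (fun t => Rseq A k t + (-(Rseq A k 0) / A 0) * A t) 0

/-- Taylor coefficients of `1 / A` at `0` -/
noncomputable def qseq (A : ℂ → ℂ) (k : ℕ) : ℂ := -(Rseq A k 0) / A 0

theorem Rseq_succ (A : ℂ → ℂ) (k : ℕ) :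
    Rseq A (k + 1) = dslope (fun t => Rseq A k t + qseq A k * A t) 0 := rfl

theorem differentiableOn_Rseq {A : ℂ → ℂ} (hA : DifferentiableOn ℂ A (ball 0 1)) (k : ℕ) :
    DifferentiableOn ℂ (Rseq A k) (ball 0 1) := by
  induction k with
  | zero => exact differentiableOn_const _
  | succ k ih =>
    rw [Rseq_succ, Complex.differentiableOn_dslope (ball_mem_nhds 0 one_pos)]
    exact ih.add (hA.const_mul _)

theorem trunc_eq {A : ℂ → ℂ} (hA0 : A 0 ≠ 0) (k : ℕ) (t : ℂ) :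
    A t * ∑ j ∈ Finset.range k, qseq A j * t ^ j = 1 + t ^ k * Rseq A k t := by
  induction k with
  | zero => simp [Rseq]
  | succ k ih =>
    rw [Finset.sum_range_succ, mul_add, ih, Rseq_succ]
    have h1 : t * dslope (fun t => Rseq A k t + qseq A k * A t) 0 t =
        Rseq A k t + qseq A k * A t := by
      have h2 := sub_smul_dslope (fun t => Rseq A k t + qseq A k * A t) 0 t
      simp only [sub_zero, smul_eq_mul] at h2
      rw [h2]
      have h3 : Rseq A k 0 + qseq A k * A 0 = 0 := by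
        rw [qseq]; field_simp; ring
      rw [h3, sub_zero]
    rw [pow_succ, mul_assoc (t ^ k) t, h1]
    ring

theorem geom_sum_le {ρ : ℝ} (h0 : 0 ≤ ρ) (h1 : ρ < 1) (k : ℕ) :
    ∑ j ∈ Finset.range k, ρ ^ j ≤ (1 - ρ)⁻¹ := by
  have h2 : (0 : ℝ) < 1 - ρ := by linarith
  rw [← one_div, le_div_iff₀ h2]
  have h3 := geom_sum_mul_neg ρ k
  rw [h3]
  have : 0 ≤ ρ ^ k := by positivity
  linarith

theorem exists_large_qseq {A : ℂ → ℂ} (hA : DifferentiableOn ℂ A (ball 0 1)) (hA0 : A 0 ≠ 0)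
    {K : ℝ} (hK : ∀ t ∈ ball (0 : ℂ) 1, ‖A t‖ ≤ K) {t₀ : ℂ} (ht₀ : ‖t₀‖ < 1) (hz : A t₀ = 0)
    (C : ℝ) : ∃ k, C < ‖qseq A k‖ := by
  by_contra hcon
  push Not at hcon
  have hC : 0 ≤ C := (norm_nonneg _).trans (hcon 0)
  have hK0 : 0 ≤ K := (norm_nonneg _).trans (hK 0 (mem_ball_self one_pos))
  obtain ⟨ρ, hρ1, hρ2⟩ := exists_between ht₀
  have hρ0 : 0 < ρ := lt_of_le_of_lt (norm_nonneg _) hρ1
  set B : ℝ := K * (C * (1 - ρ)⁻¹) + 1 with hB
  have hB0 : 0 ≤ B := by
    have : 0 ≤ (1 - ρ)⁻¹ := inv_nonneg.2 (by linarith)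
    positivity
  have hbd : ∀ k, ∀ t : ℂ, ‖t‖ = ρ → ‖Rseq A k t‖ ≤ B / ρ ^ k := by
    intro k t ht
    have h1 := trunc_eq hA0 k t
    have h2 : t ^ k * Rseq A k t = A t * ∑ j ∈ Finset.range k, qseq A j * t ^ j - 1 := by
      rw [h1]; ring
    have h3 : ‖t ^ k * Rseq A k t‖ ≤ B := by
      rw [h2]
      have ht1 : t ∈ ball (0 : ℂ) 1 := by rw [mem_ball_zero_iff, ht]; exact hρ2
      calc ‖A t * ∑ j ∈ Finset.range k, qseq A j * t ^ j - 1‖
          ≤ ‖A t * ∑ j ∈ Finset.range k, qseq A j * t ^ j‖ + ‖(1 : ℂ)‖ := norm_sub_le _ _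
        _ ≤ K * (C * (1 - ρ)⁻¹) + 1 := by
            rw [norm_mul, norm_one]
            gcongr
            · exact hK t ht1
            · calc ‖∑ j ∈ Finset.range k, qseq A j * t ^ j‖
                  ≤ ∑ j ∈ Finset.range k, ‖qseq A j * t ^ j‖ := norm_sum_le _ _
                _ ≤ ∑ j ∈ Finset.range k, C * ρ ^ j := by
                    refine Finset.sum_le_sum fun j _ => ?_
                    rw [norm_mul, norm_pow, ht]
                    gcongr
                    exact hcon j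
                _ = C * ∑ j ∈ Finset.range k, ρ ^ j := by rw [Finset.mul_sum]
                _ ≤ C * (1 - ρ)⁻¹ := by gcongr; exact geom_sum_le hρ0.le hρ2 k
    rw [norm_mul, norm_pow, ht] at h3
    rw [le_div_iff₀ (by positivity)]
    linarith
  have hone : ∀ k, (1 : ℝ) ≤ (‖t₀‖ / ρ) ^ k * B := by
    intro k
    have h1 := trunc_eq hA0 k t₀
    rw [hz, zero_mul] at h1
    have h2 : ‖t₀ ^ k * Rseq A k t₀‖ = 1 := by
      have : t₀ ^ k * Rseq A k t₀ = -1 := by linear_combination -h1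
      rw [this]; simp
    have h3 : ‖Rseq A k t₀‖ ≤ B / ρ ^ k := by
      refine Complex.norm_le_of_forall_mem_frontier_norm_le (U := ball (0 : ℂ) ρ) isBounded_ball
        ?_ ?_ ?_
      · refine DifferentiableOn.diffContOnCl ?_
        rw [closure_ball _ hρ0.ne']
        exact (differentiableOn_Rseq hA k).mono (closedBall_subset_ball hρ2)
      · intro z hz
        rw [frontier_ball _ hρ0.ne', mem_sphere_zero_iff_norm] at hz
        exact hbd k z hz
      · apply subset_closure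
        rw [mem_ball_zero_iff]; exact hρ1
    rw [norm_mul, norm_pow] at h2
    calc (1 : ℝ) = ‖t₀‖ ^ k * ‖Rseq A k t₀‖ := h2.symm
      _ ≤ ‖t₀‖ ^ k * (B / ρ ^ k) := by gcongr
      _ = (‖t₀‖ / ρ) ^ k * B := by rw [div_pow]; ring
  have hlim : Filter.Tendsto (fun k : ℕ => (‖t₀‖ / ρ) ^ k * B) Filter.atTop (𝓝 (0 * B)) := by
    refine Filter.Tendsto.mul_const B (tendsto_pow_atTop_nhds_zero_of_lt_one (by positivity) ?_)
    rw [div_lt_one hρ0]; exact hρ1
  rw [zero_mul] at hlim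
  have := ge_of_tendsto' hlim hone
  linarith

end Pool.Agent.H720R2
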