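import Mathlib
import Pool.Agent.H720R2.Rec
import Pool.Agent.H720R2.Strip
import Pool.Agent.H720R2.Trunc
import Pool.Agent.H720R2.Combi

set_option autoImplicit false

open Complex Set Function Metric Finset
open scoped Real Topology

namespace Pool.Agent.H720R2

/-- the open unit ball of `ℂⁿ` (Euclidean norm) -/
def Bn (n : ℕ) : Set (Fin n → ℂ) := {z | ∑ i, ‖z i‖ ^ 2 < 1}

theorem isOpen_Bn (n : ℕ) : IsOpen (Bn n) := by
  apply isOpen_lt _ continuous_const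
  fun_prop

/-- the first function of the pair -/
noncomputable def fA (c : ℝ) (t : ℂ) : ℂ := cos (th c t)
/-- the second function of the pair -/
noncomputable def fB (c : ℝ) (t : ℂ) : ℂ := sin (th c t)

theorem differentiableOn_fA (c : ℝ) : DifferentiableOn ℂ (fA c) (ball 0 1) :=
  (differentiableOn_th c).ccos

theorem differentiableOn_fB (c : ℝ) : DifferentiableOn ℂ (fB c) (ball 0 1) :=
  (differentiableOn_th c).csin

theorem fA_zero (c : ℝ) : fA c 0 = 1 := by simp [fA, th_zero]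
theorem fB_zero (c : ℝ) : fB c 0 = 0 := by simp [fB, th_zero]

theorem fAB_ge (c : ℝ) (t : ℂ) : 1 ≤ ‖fA c t‖ ^ 2 + ‖fB c t‖ ^ 2 := by
  unfold fA fB
  rw [norm_sq_cos_add_sin]
  exact Real.one_le_cosh _

theorem fAB_le {c : ℝ} (hc : 0 ≤ c) {t : ℂ} (ht : ‖t‖ < 1) :
    ‖fA c t‖ ^ 2 + ‖fB c t‖ ^ 2 ≤ Real.cosh (2 * (c * π)) := by
  unfold fA fB
  rw [norm_sq_cos_add_sin, Real.cosh_le_cosh, abs_mul, abs_mul]
  have h1 := abs_im_th_le hc ht
  have h2 : 0 ≤ c * π := mul_nonneg hc Real.pi_pos.le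
  rw [abs_of_nonneg h2]
  gcongr

theorem exists_zero {c : ℝ} (hc : 0 < c) : ∃ t₀ : ℂ, ‖t₀‖ < 1 ∧ fA c t₀ = 0 := by
  set e := Real.exp (π / (2 * c)) with he
  have he1 : 1 < e := Real.one_lt_exp_iff.2 (by positivity)
  have he0 : 0 < e := by linarith
  refine ⟨(((e - 1) / (e + 1) : ℝ) : ℂ), ?_, ?_⟩
  · rw [Complex.norm_real, Real.norm_eq_abs, abs_lt]
    constructor
    · have : 0 < (e - 1) / (e + 1) := by
        apply div_pos <;> linarith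
      linarith
    · rw [div_lt_one (by linarith)]; linarith
  · have h1 : (1 : ℂ) + (((e - 1) / (e + 1) : ℝ) : ℂ) = ((2 * e / (e + 1) : ℝ) : ℂ) := by
      rw [← Complex.ofReal_one, ← Complex.ofReal_add]
      congr 1
      field_simp
      ring
    have h2 : (1 : ℂ) - (((e - 1) / (e + 1) : ℝ) : ℂ) = ((2 / (e + 1) : ℝ) : ℂ) := by
      rw [← Complex.ofReal_one, ← Complex.ofReal_sub]
      congr 1
      field_simp
      ring
    have h3 : th c (((e - 1) / (e + 1) : ℝ) : ℂ) = ((π / 2 : ℝ) : ℂ) := by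
      unfold th
      rw [h1, h2, ← Complex.ofReal_log (by positivity), ← Complex.ofReal_log (by positivity),
        ← Complex.ofReal_sub, ← Complex.ofReal_mul]
      congr 1
      rw [← Real.log_div (by positivity) (by positivity)]
      have : 2 * e / (e + 1) / (2 / (e + 1)) = e := by field_simp
      rw [this, he, Real.log_exp]
      field_simp
    unfold fA
    rw [h3]
    push_cast
    exact Complex.cos_pi_div_two

theorem fB_le {c : ℝ} (hc : 0 ≤ c) (hc2 : Real.cosh (2 * (c * π)) ≤ 2) {t : ℂ} (ht : ‖t‖ < 1) :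
    ‖fB c t‖ ≤ 2 * ‖t‖ := by
  have h1 : MapsTo (fB c) (ball 0 1) (closedBall (fB c 0) 2) := by
    intro s hs
    rw [mem_ball_zero_iff] at hs
    rw [fB_zero, mem_closedBall_zero_iff]
    have := fAB_le hc hs
    nlinarith [norm_nonneg (fB c s), sq_nonneg ‖fA c s‖]
  have := Complex.dist_le_div_mul_dist_of_mapsTo_ball (differentiableOn_fB c) h1
    (mem_ball_zero_iff.2 ht)
  rw [fB_zero, dist_zero_right, dist_zero_right] at this
  simpa using this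

variable {n : ℕ}

/-- the product of the coordinates, normalized to have norm one on the ball -/
noncomputable def gg (n : ℕ) (z : Fin n → ℂ) : ℂ := ((Real.sqrt n ^ n : ℝ) : ℂ) * W 0 z

theorem differentiable_gg (n : ℕ) : Differentiable ℂ (gg n) :=
  (differentiable_W 0).const_mul _

theorem norm_gg_sq (z : Fin n → ℂ) : ‖gg n z‖ ^ 2 = ∏ i, ((n : ℝ) * ‖z i‖ ^ 2) := by
  unfold gg W
  rw [norm_mul, mul_pow, norm_prod, Complex.norm_real, Real.norm_of_nonneg (by positivity),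
    ← pow_mul, mul_comm n 2, pow_mul, Real.sq_sqrt (Nat.cast_nonneg n), Finset.prod_mul_distrib,
    ← Finset.prod_pow]
  simp

theorem norm_gg_sq_le (z : Fin n → ℂ) : ‖gg n z‖ ^ 2 ≤ (∑ i, ‖z i‖ ^ 2) ^ n := by
  rw [norm_gg_sq]
  exact prod_le_pow_sum fun i => by positivity

theorem norm_gg_lt_one (hn : 0 < n) {z : Fin n → ℂ} (hz : z ∈ Bn n) : ‖gg n z‖ < 1 := by
  have h1 := norm_gg_sq_le z
  have h2 : (∑ i, ‖z i‖ ^ 2) ^ n < 1 :=
    pow_lt_one₀ (Finset.sum_nonneg fun i _ => by positivity) hz hn.ne'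
  have h3 : ‖gg n z‖ ^ 2 < 1 := lt_of_le_of_lt h1 h2
  nlinarith [norm_nonneg (gg n z)]

/-- coefficients of the monomials -/
noncomputable def co (ρ : ℝ) (α : Fin n → ℕ) : ℝ :=
  Real.sqrt (Real.exp (-ρ) * ∏ i, ρ ^ (α i) / ((α i).factorial : ℝ))

/-- the normalized monomials -/
noncomputable def mo (ρ : ℝ) (α : Fin n → ℕ) (z : Fin n → ℂ) : ℂ := (co ρ α : ℂ) * ∏ i, z i ^ (α i)

theorem differentiable_mo (ρ : ℝ) (α : Fin n → ℕ) : Differentiable ℂ (mo ρ α) := by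
  unfold mo
  have : ∀ i : Fin n, Differentiable ℂ fun z : Fin n → ℂ => z i ^ (α i) := fun i => by fun_prop
  fun_prop

theorem norm_mo_sq {ρ : ℝ} (hρ : 0 ≤ ρ) (α : Fin n → ℕ) (z : Fin n → ℂ) :
    ‖mo ρ α z‖ ^ 2 = Real.exp (-ρ) * ∏ i, (ρ * ‖z i‖ ^ 2) ^ (α i) / ((α i).factorial : ℝ) := by
  unfold mo co
  rw [norm_mul, mul_pow, Complex.norm_real, Real.norm_of_nonneg (Real.sqrt_nonneg _),
    Real.sq_sqrt (by positivity), norm_prod, ← Finset.prod_pow, mul_assoc,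
    ← Finset.prod_mul_distrib]
  congr 1
  refine Finset.prod_congr rfl fun i _ => ?_
  rw [norm_pow, mul_pow, ← pow_mul, ← pow_mul, mul_comm (α i) 2]
  ring

theorem sum_mo {ρ : ℝ} (hρ : 0 ≤ ρ) {a K : ℕ} (hKa : a ≤ K) (z : Fin n → ℂ) :
    ∑ α ∈ idx n K a, ‖mo ρ α z‖ ^ 2 = Real.exp (-ρ) * ((∏ i, ex K (ρ * ‖z i‖ ^ 2)) -
      ∏ i, ex a (ρ * ‖z i‖ ^ 2)) := by
  rw [← sum_idx n K a hKa, Finset.mul_sum]
  exact Finset.sum_congr rfl fun α _ => norm_mo_sq hρ α z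

theorem sum_mo_le_one {ρ : ℝ} (hρ : 0 ≤ ρ) {a K : ℕ} (hKa : a ≤ K) {z : Fin n → ℂ}
    (hz : z ∈ Bn n) : ∑ α ∈ idx n K a, ‖mo ρ α z‖ ^ 2 ≤ 1 := by
  rw [sum_mo hρ hKa]
  have hz' : ∑ i, ‖z i‖ ^ 2 < 1 := hz
  have h1 : 0 ≤ ∏ i, ex a (ρ * ‖z i‖ ^ 2) :=
    Finset.prod_nonneg fun i _ => ex_nonneg a (by positivity)
  have h2 : ∏ i, ex K (ρ * ‖z i‖ ^ 2) ≤ Real.exp ρ := by
    calc ∏ i, ex K (ρ * ‖z i‖ ^ 2) ≤ ∏ i, Real.exp (ρ * ‖z i‖ ^ 2) :=
          Finset.prod_le_prod (fun i _ => ex_nonneg K (by positivity)) fun i _ =>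
            ex_le_exp K (by positivity)
      _ = Real.exp (ρ * ∑ i, ‖z i‖ ^ 2) := by rw [← Real.exp_sum, Finset.mul_sum]
      _ ≤ Real.exp ρ := by
          gcongr
          nlinarith
  calc Real.exp (-ρ) * ((∏ i, ex K (ρ * ‖z i‖ ^ 2)) - ∏ i, ex a (ρ * ‖z i‖ ^ 2))
      ≤ Real.exp (-ρ) * Real.exp ρ := by gcongr; linarith
    _ = 1 := by rw [← Real.exp_add]; simp

theorem main_estimate (hn : 0 < n) {ε τ : ℝ} (hε : 0 < ε) (hτ0 : 0 ≤ τ) (hτ1 : τ ≤ 1)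
    (hτ : n * τ ≤ ε)
    {a K : ℕ} (hKa : a ≤ K)
    (hK : ∀ y, 0 ≤ y → y ≤ ε * n → Real.exp y * (1 - τ) ≤ ex K y) {z : Fin n → ℂ}
    (hz : z ∈ Bn n) :
    ‖gg n z‖ ^ 2 * (1 - ∑ α ∈ idx n K a, ‖mo (ε * n) α z‖ ^ 2) ≤ 2 * ε + qc ε a ^ n := by
  have hz' : ∑ i, ‖z i‖ ^ 2 < 1 := hz
  have hn' : (0 : ℝ) < n := by exact_mod_cast hn
  set ρ : ℝ := ε * n with hρ
  have hρ0 : 0 < ρ := by positivity
  set s : ℝ := ∑ i, ‖z i‖ ^ 2 with hs
  have hs0 : 0 ≤ s := Finset.sum_nonneg fun i _ => by positivity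
  rw [sum_mo hρ0.le hKa]
  have hx1 : ∀ i, ‖z i‖ ^ 2 ≤ 1 := by
    intro i
    have : ‖z i‖ ^ 2 ≤ s := Finset.single_le_sum (f := fun i => ‖z i‖ ^ 2)
      (fun i _ => by positivity) (Finset.mem_univ i)
    linarith
  have h1 : Real.exp (ρ * s) * (1 - n * τ) ≤ ∏ i, ex K (ρ * ‖z i‖ ^ 2) := by
    calc Real.exp (ρ * s) * (1 - n * τ) ≤ Real.exp (ρ * s) * (1 - τ) ^ n := by
          gcongr
          have := one_add_mul_le_pow (a := -τ) (by linarith) n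
          rw [← sub_eq_add_neg] at this
          linarith
      _ = ∏ i, (Real.exp (ρ * ‖z i‖ ^ 2) * (1 - τ)) := by
          rw [Finset.prod_mul_distrib, ← Real.exp_sum, ← Finset.mul_sum]; simp [hs]
      _ ≤ ∏ i, ex K (ρ * ‖z i‖ ^ 2) := by
          refine Finset.prod_le_prod (fun i _ => ?_) fun i _ => ?_
          · have : 0 ≤ 1 - τ := by linarith
            positivity
          · refine hK _ (by positivity) ?_
            have := hx1 i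
            nlinarith
  have h2 : 1 - ρ * (1 - s) ≤ Real.exp (-ρ) * Real.exp (ρ * s) := by
    rw [← Real.exp_add]
    have := Real.add_one_le_exp (-ρ + ρ * s)
    linarith
  have h2' : Real.exp (-ρ) * Real.exp (ρ * s) ≤ 1 := by
    rw [← Real.exp_add, Real.exp_le_one_iff]; nlinarith
  have hG1 : ‖gg n z‖ ^ 2 ≤ s ^ n := norm_gg_sq_le z
  have hG2 : ‖gg n z‖ ^ 2 ≤ 1 := hG1.trans (pow_le_one₀ hs0 hz'.le)
  have hG0 : 0 ≤ ‖gg n z‖ ^ 2 := by positivity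
  have h3 := prod_ex_le hε a (x := fun i : Fin n => ‖z i‖ ^ 2) (fun i => by positivity) hz'.le
  rw [← norm_gg_sq, ← hρ] at h3
  have h4 : 1 - Real.exp (-ρ) * ((∏ i, ex K (ρ * ‖z i‖ ^ 2)) - ∏ i, ex a (ρ * ‖z i‖ ^ 2)) ≤
      ρ * (1 - s) + n * τ + Real.exp (-ρ) * ∏ i, ex a (ρ * ‖z i‖ ^ 2) := by
    have h5 : Real.exp (-ρ) * (Real.exp (ρ * s) * (1 - n * τ)) ≤
        Real.exp (-ρ) * ∏ i, ex K (ρ * ‖z i‖ ^ 2) := by gcongr
    have h6 : 0 ≤ (n : ℝ) * τ := by positivity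
    nlinarith
  have h7 : ‖gg n z‖ ^ 2 * (ρ * (1 - s)) ≤ ε := by
    calc ‖gg n z‖ ^ 2 * (ρ * (1 - s)) ≤ s ^ n * (ρ * (1 - s)) := by
          have : 0 ≤ 1 - s := by linarith
          gcongr
      _ = ρ * (s ^ n * (1 - s)) := by ring
      _ ≤ ρ * (1 / (n + 1)) := by gcongr; exact pow_mul_one_sub_le hs0 hz'.le n
      _ ≤ ε := by
          rw [hρ, mul_one_div, div_le_iff₀ (by positivity)]
          nlinarith
  have h8 : ‖gg n z‖ ^ 2 * (n * τ) ≤ ε := by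
    calc ‖gg n z‖ ^ 2 * (n * τ) ≤ 1 * (n * τ) := by gcongr
      _ ≤ ε := by linarith
  calc ‖gg n z‖ ^ 2 * (1 - Real.exp (-ρ) * ((∏ i, ex K (ρ * ‖z i‖ ^ 2)) -
        ∏ i, ex a (ρ * ‖z i‖ ^ 2)))
      ≤ ‖gg n z‖ ^ 2 * (ρ * (1 - s) + n * τ + Real.exp (-ρ) * ∏ i, ex a (ρ * ‖z i‖ ^ 2)) := by
        gcongr
    _ = ‖gg n z‖ ^ 2 * (ρ * (1 - s)) + ‖gg n z‖ ^ 2 * (n * τ) +
          ‖gg n z‖ ^ 2 * (Real.exp (-ρ) * ∏ i, ex a (ρ * ‖z i‖ ^ 2)) := by ring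
    _ ≤ 2 * ε + qc ε a ^ n := by linarith

end Pool.Agent.H720R2
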