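import Mathlib
import Pool.Agent.H720R2.Core

set_option autoImplicit false

open Complex Set Function Metric Finset
open scoped Real Topology

namespace Pool.Agent.H720R2

variable {n : ℕ}

theorem gg_pow (a : ℕ) (z : Fin n → ℂ) :
    gg n z ^ a = ((Real.sqrt n ^ n : ℝ) : ℂ) ^ a * W 0 z ^ a := by
  rw [gg, mul_pow]

/-- `mo` is divisible by `z_i ^ a` -/
theorem mo_factor {K a : ℕ} {α : Fin n → ℕ} (hα : α ∈ idx n K a) (ρ : ℝ) :
    ∃ (i : Fin n) (G : (Fin n → ℂ) → ℂ), Differentiable ℂ G ∧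
      ∀ z, mo ρ α z = (z i - (0 : Fin n → ℂ) i) ^ a * G z := by
  obtain ⟨-, i, hi⟩ := mem_idx.1 hα
  refine ⟨i, fun z => (co ρ α : ℂ) * (z i ^ (α i - a) * ∏ j ∈ Finset.univ.erase i, z j ^ (α j)),
    ?_, ?_⟩
  · have : ∀ i : Fin n, ∀ m : ℕ, Differentiable ℂ fun z : Fin n → ℂ => z i ^ m :=
      fun i m => by fun_prop
    fun_prop
  · intro z
    unfold mo
    rw [← Finset.mul_prod_erase _ _ (Finset.mem_univ i)]
    have : z i ^ (α i) = z i ^ a * z i ^ (α i - a) := by rw [← pow_add]; congr 1; omega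
    rw [this]
    simp only [Pi.zero_apply, sub_zero]
    ring

/-- the functional applied to a polynomial in `gg` -/
theorem Lc_poly {r : ℝ} (hr : 0 < r) (hn : 0 < n) (q : ℕ → ℂ) (k : ℕ) :
    Lc 0 r k (fun z : Fin n → ℂ => ∑ j ∈ range (k + 1), q j * gg n z ^ j) =
      q k * ((Real.sqrt n ^ n : ℝ) : ℂ) ^ k := by
  rw [Lc_sum hr k (range (k + 1)) (F := fun j z => q j * gg n z ^ j)]
  · have h1 : ∀ j, Lc 0 r k (fun z : Fin n → ℂ => q j * gg n z ^ j) =
        q j * (((Real.sqrt n ^ n : ℝ) : ℂ) ^ j * Lc 0 r k (fun z : Fin n → ℂ => W 0 z ^ j)) := by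
      intro j
      rw [Lc_const_mul]
      congr 1
      simp only [gg_pow]
      rw [Lc_const_mul]
    simp only [h1]
    rw [Finset.sum_eq_single k]
    · rw [Lc_W_pow_self hr k, mul_one]
    · intro j _ hjk
      rw [Lc_W_pow_ne hr hjk hn, mul_zero, mul_zero]
    · intro h; simp at h
  · intro j _
    have := continuous_comp_torusMap (p := (0 : Fin n → ℂ)) hr (Set.subset_univ _)
      ((((differentiable_gg n).pow j).const_mul (q j)).differentiableOn)
    exact this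

theorem closedBall_subset_Bn {r : ℝ} (hr : 0 ≤ r) (h : n * r ^ 2 < 1) :
    closedBall (0 : Fin n → ℂ) r ⊆ Bn n := by
  intro z hz
  rw [mem_closedBall_zero_iff, pi_norm_le_iff_of_nonneg hr] at hz
  calc ∑ i, ‖z i‖ ^ 2 ≤ ∑ _i : Fin n, r ^ 2 := by
        gcongr with i _
        exact hz i
    _ = n * r ^ 2 := by simp
    _ < 1 := h

/-- the lower bound, in a form which allows small errors -/
theorem core_lower {c : ℝ} (hc0 : 0 ≤ c) (hn : 0 < n) {k K : ℕ} {C₀ ρ M : ℝ} (hC₀ : 1 ≤ C₀)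
    (hM : 0 ≤ M) (hq : 2 * (M + 1) < ‖qseq (fA c) k‖) {r : ℝ} (hr : 0 < r)
    (hrB : closedBall (0 : Fin n → ℂ) r ⊆ Bn n)
    (hr2 : 1 / 2 ≤ (Real.sqrt n ^ n * r ^ n) ^ k) {η : ℝ}
    (hη : η * (∑ j ∈ range (k + 1), ‖qseq (fA c) j‖) ≤ 1)
    {U : Set (Fin n → ℂ)} (hU : IsOpen U) (hpU : closedBall 0 r ⊆ U)
    {h0 : (Fin n → ℂ) → ℂ} {h : (Fin n → ℕ) → (Fin n → ℂ) → ℂ} (hh0 : DifferentiableOn ℂ h0 U)
    (hh : ∀ α, DifferentiableOn ℂ (h α) U)
    (heq : ∀ z ∈ closedBall (0 : Fin n → ℂ) r,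
      ‖fA c (gg n z) / C₀ * h0 z + ∑ α ∈ idx n K (k + 1),
        (fB c (gg n z) * mo ρ α z / C₀) * h α z - 1‖ ≤ η) :
    ∃ z ∈ closedBall (0 : Fin n → ℂ) r, M < ‖h0 z‖ := by
  by_contra hcon
  push Not at hcon
  have hC₀0 : 0 < C₀ := by linarith
  have hC₀c : (C₀ : ℂ) ≠ 0 := by exact_mod_cast hC₀0.ne'
  -- restrict to `V = U ∩ Bn`
  set V : Set (Fin n → ℂ) := U ∩ Bn n with hV
  have hVo : IsOpen V := hU.inter (isOpen_Bn n)
  have hpV : closedBall 0 r ⊆ V := fun z hz => ⟨hpU hz, hrB hz⟩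
  have hgV : MapsTo (gg n) V (ball 0 1) := fun z hz => by
    rw [mem_ball_zero_iff]; exact norm_gg_lt_one hn hz.2
  have hgd : DifferentiableOn ℂ (gg n) V := (differentiable_gg n).differentiableOn
  have hBV : DifferentiableOn ℂ (fun z => fB c (gg n z)) V := (differentiableOn_fB c).comp hgd hgV
  have hAV : DifferentiableOn ℂ (fun z => fA c (gg n z)) V := (differentiableOn_fA c).comp hgd hgV
  have hRV : DifferentiableOn ℂ (fun z => Rseq (fA c) (k + 1) (gg n z)) V :=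
    (differentiableOn_Rseq (differentiableOn_fA c) (k + 1)).comp hgd hgV
  have hh0V : DifferentiableOn ℂ h0 V := hh0.mono inter_subset_left
  have hhV : ∀ α, DifferentiableOn ℂ (h α) V := fun α => (hh α).mono inter_subset_left
  set Q : (Fin n → ℂ) → ℂ := fun z => ∑ j ∈ range (k + 1), qseq (fA c) j * gg n z ^ j with hQ
  have hQd : DifferentiableOn ℂ Q V := by
    have : ∀ j, Differentiable ℂ fun z : Fin n → ℂ => qseq (fA c) j * gg n z ^ j :=
      fun j => ((differentiable_gg n).pow j).const_mul _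
    have : Differentiable ℂ Q := by
      rw [hQ]; fun_prop
    exact this.differentiableOn
  have hA0 : fA c 0 ≠ 0 := by rw [fA_zero]; exact one_ne_zero
  have hAQ : ∀ z, fA c (gg n z) * Q z = 1 + gg n z ^ (k + 1) * Rseq (fA c) (k + 1) (gg n z) :=
    fun z => trunc_eq hA0 (k + 1) (gg n z)
  -- the error function
  set E : (Fin n → ℂ) → ℂ := fun z => fA c (gg n z) / C₀ * h0 z + ∑ α ∈ idx n K (k + 1),
        (fB c (gg n z) * mo ρ α z / C₀) * h α z - 1 with hE
  have hEd : DifferentiableOn ℂ E V := by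
    rw [hE]
    simp only [div_eq_mul_inv]
    refine (DifferentiableOn.add ?_ ?_).sub (differentiableOn_const _)
    · exact (hAV.mul_const _).mul hh0V
    · refine DifferentiableOn.fun_sum fun α _ => ?_
      exact ((hBV.mul (differentiable_mo ρ α).differentiableOn).mul_const _).mul (hhV α)
  -- the identity
  have hid : ∀ z, h0 z + (gg n z ^ (k + 1) * (Rseq (fA c) (k + 1) (gg n z) * h0 z) +
      ∑ α ∈ idx n K (k + 1), mo ρ α z * (Q z * fB c (gg n z) * h α z)) =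
      (C₀ : ℂ) * Q z + (C₀ : ℂ) * (Q z * E z) := by
    intro z
    have e1 : (C₀ : ℂ) * (Q z * E z) = fA c (gg n z) * Q z * h0 z +
        (∑ α ∈ idx n K (k + 1), mo ρ α z * (Q z * fB c (gg n z) * h α z)) - C₀ * Q z := by
      rw [hE]
      dsimp only
      rw [mul_sub, mul_add, mul_sub, mul_add, Finset.mul_sum, Finset.mul_sum]
      have : ∀ α ∈ idx n K (k + 1), (C₀ : ℂ) * (Q z * (fB c (gg n z) * mo ρ α z / C₀ * h α z)) =
          mo ρ α z * (Q z * fB c (gg n z) * h α z) := by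
        intro α _
        field_simp
      rw [Finset.sum_congr rfl this]
      have e2 : (C₀ : ℂ) * (Q z * (fA c (gg n z) / C₀ * h0 z)) = fA c (gg n z) * Q z * h0 z := by
        field_simp
      rw [e2]
      ring
    rw [e1, hAQ]
    ring
  -- apply the functional
  have c0 := continuous_comp_torusMap hr hpV hh0V
  have cQ := continuous_comp_torusMap hr hpV hQd
  have cE := continuous_comp_torusMap hr hpV hEd
  have cB := continuous_comp_torusMap hr hpV hBV
  have cR := continuous_comp_torusMap hr hpV hRV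
  have cg := continuous_comp_torusMap hr hpV hgd
  have ch := fun α => continuous_comp_torusMap hr hpV (hhV α)
  have cm := fun α => continuous_comp_torusMap hr hpV (differentiable_mo (n := n) ρ α).differentiableOn
  have L1 : Lc 0 r k (fun z => gg n z ^ (k + 1) * (Rseq (fA c) (k + 1) (gg n z) * h0 z)) = 0 := by
    obtain _ | m := n
    · exact absurd hn (lt_irrefl _)
    have e1 : Lc 0 r k (fun z => gg (m + 1) z ^ (k + 1) *
        (Rseq (fA c) (k + 1) (gg (m + 1) z) * h0 z)) =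
        Lc 0 r k (fun z => (z 0 - (0 : Fin (m + 1) → ℂ) 0) ^ (k + 1) *
          (((Real.sqrt (m + 1 : ℕ) ^ (m + 1) : ℝ) : ℂ) ^ (k + 1) *
          (∏ j : Fin m, z j.succ) ^ (k + 1) * (Rseq (fA c) (k + 1) (gg (m + 1) z) * h0 z))) := by
      apply Lc_congr hr
      intro θ
      rw [gg_pow]
      have : ∀ z : Fin (m + 1) → ℂ, W 0 z = z 0 * ∏ j : Fin m, z j.succ := by
        intro z; unfold W; rw [Fin.prod_univ_succ]; simp
      rw [this, mul_pow]
      simp only [Pi.zero_apply, sub_zero]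
      ring
    rw [e1]
    refine Lc_mul_pow_eq_zero hr (Nat.lt_succ_self k) 0 hVo hpV ?_
    have h2 : Differentiable ℂ fun z : Fin (m + 1) → ℂ => (∏ j : Fin m, z j.succ) := by
      have : ∀ j : Fin m, Differentiable ℂ fun z : Fin (m + 1) → ℂ => z j.succ :=
        fun j => by fun_prop
      fun_prop
    exact (((h2.pow (k + 1)).const_mul _).differentiableOn).mul (hRV.mul hh0V)
  have L2 : ∀ α ∈ idx n K (k + 1), Lc 0 r k (fun z =>
      mo ρ α z * (Q z * fB c (gg n z) * h α z)) = 0 := by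
    intro α hα
    obtain ⟨i, G, hG, hmo⟩ := mo_factor hα ρ
    have e1 : Lc 0 r k (fun z => mo ρ α z * (Q z * fB c (gg n z) * h α z)) =
        Lc 0 r k (fun z => (z i - (0 : Fin n → ℂ) i) ^ (k + 1) *
          (G z * (Q z * fB c (gg n z) * h α z))) := by
      apply Lc_congr hr
      intro θ
      rw [hmo]; ring
    rw [e1]
    exact Lc_mul_pow_eq_zero hr (Nat.lt_succ_self k) i hVo hpV
      (hG.differentiableOn.mul ((hQd.mul hBV).mul (hhV α)))
  have L3 : Lc 0 r k (fun z => h0 z + (gg n z ^ (k + 1) * (Rseq (fA c) (k + 1) (gg n z) * h0 z) +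
      ∑ α ∈ idx n K (k + 1), mo ρ α z * (Q z * fB c (gg n z) * h α z))) = Lc 0 r k h0 := by
    have c2 : Continuous fun θ => ∑ α ∈ idx n K (k + 1), mo ρ α (torusMap 0 (fun _ => r) θ) *
        (Q (torusMap 0 (fun _ => r) θ) * fB c (gg n (torusMap 0 (fun _ => r) θ)) *
          h α (torusMap 0 (fun _ => r) θ)) :=
      continuous_finset_sum _ fun α _ => (cm α).mul ((cQ.mul cB).mul (ch α))
    rw [Lc_add hr k (F := h0) (G := fun z => gg n z ^ (k + 1) *
        (Rseq (fA c) (k + 1) (gg n z) * h0 z) +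
      ∑ α ∈ idx n K (k + 1), mo ρ α z * (Q z * fB c (gg n z) * h α z)) c0
      (((cg.pow _).mul (cR.mul c0)).add c2),
      Lc_add hr k (F := fun z => gg n z ^ (k + 1) * (Rseq (fA c) (k + 1) (gg n z) * h0 z))
        (G := fun z => ∑ α ∈ idx n K (k + 1), mo ρ α z * (Q z * fB c (gg n z) * h α z))
        ((cg.pow _).mul (cR.mul c0)) c2, L1,
      Lc_sum hr k _ (F := fun α z => mo ρ α z * (Q z * fB c (gg n z) * h α z))
        (fun α _ => (cm α).mul ((cQ.mul cB).mul (ch α))), Finset.sum_eq_zero L2]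
    simp
  have L4 : Lc 0 r k h0 = (C₀ : ℂ) * (qseq (fA c) k * ((Real.sqrt n ^ n : ℝ) : ℂ) ^ k) +
      (C₀ : ℂ) * Lc 0 r k (fun z => Q z * E z) := by
    rw [← L3, funext hid]
    rw [Lc_add hr k (F := fun z => (C₀ : ℂ) * Q z) (G := fun z => (C₀ : ℂ) * (Q z * E z))
      (continuous_const.mul cQ) (continuous_const.mul (cQ.mul cE)), Lc_const_mul, Lc_const_mul,
      hQ, Lc_poly hr hn]
  -- bounds
  set γ : ℝ := Real.sqrt n ^ n with hγ
  have hγ0 : 0 < γ := by
    have : (0 : ℝ) < n := by exact_mod_cast hn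
    positivity
  have B1 : ‖Lc 0 r k h0‖ ≤ M / (r ^ n) ^ k :=
    Lc_bound hr k fun θ => hcon _ (torusMap_mem_closedBall 0 hr.le θ)
  set Q1 : ℝ := ∑ j ∈ range (k + 1), ‖qseq (fA c) j‖ with hQ1
  have hQ10 : 0 ≤ Q1 := Finset.sum_nonneg fun _ _ => norm_nonneg _
  have B2 : ‖Lc 0 r k (fun z => Q z * E z)‖ ≤ (Q1 * η) / (r ^ n) ^ k := by
    refine Lc_bound hr k fun θ => ?_
    have hmem := torusMap_mem_closedBall (0 : Fin n → ℂ) hr.le θ
    rw [norm_mul]
    have h1 : ‖Q (torusMap 0 (fun _ => r) θ)‖ ≤ Q1 := by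
      rw [hQ, hQ1]
      refine (norm_sum_le _ _).trans (Finset.sum_le_sum fun j _ => ?_)
      rw [norm_mul, norm_pow]
      have := norm_gg_lt_one hn (hrB hmem)
      calc ‖qseq (fA c) j‖ * ‖gg n (torusMap 0 (fun _ => r) θ)‖ ^ j ≤ ‖qseq (fA c) j‖ * 1 := by
            gcongr
            exact pow_le_one₀ (norm_nonneg _) this.le
        _ = _ := mul_one _
    have h2 : ‖E (torusMap 0 (fun _ => r) θ)‖ ≤ η := heq _ hmem
    gcongr
  have hrk : 0 < (r ^ n) ^ k := by positivity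
  have B3 : ‖(C₀ : ℂ) * (qseq (fA c) k * ((γ : ℝ) : ℂ) ^ k)‖ ≤
      M / (r ^ n) ^ k + C₀ * ((Q1 * η) / (r ^ n) ^ k) := by
    have e1 : (C₀ : ℂ) * (qseq (fA c) k * ((γ : ℝ) : ℂ) ^ k) =
        Lc 0 r k h0 - (C₀ : ℂ) * Lc 0 r k (fun z => Q z * E z) := by rw [L4]; ring
    rw [e1]
    refine (norm_sub_le _ _).trans ?_
    rw [norm_mul, Complex.norm_real, Real.norm_of_nonneg hC₀0.le]
    gcongr
  rw [norm_mul, norm_mul, norm_pow, Complex.norm_real, Complex.norm_real,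
    Real.norm_of_nonneg hC₀0.le, Real.norm_of_nonneg hγ0.le] at B3
  have B4 : C₀ * (‖qseq (fA c) k‖ * (γ * r ^ n) ^ k) ≤ M + C₀ * (Q1 * η) := by
    have : C₀ * (‖qseq (fA c) k‖ * (γ * r ^ n) ^ k) =
        C₀ * (‖qseq (fA c) k‖ * γ ^ k) * (r ^ n) ^ k := by rw [mul_pow]; ring
    rw [this]
    calc C₀ * (‖qseq (fA c) k‖ * γ ^ k) * (r ^ n) ^ k ≤
          (M / (r ^ n) ^ k + C₀ * ((Q1 * η) / (r ^ n) ^ k)) * (r ^ n) ^ k := by gcongr
      _ = M + C₀ * (Q1 * η) := by field_simp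
  have B5 : C₀ * (M + 1) < C₀ * (‖qseq (fA c) k‖ * (γ * r ^ n) ^ k) := by
    apply mul_lt_mul_of_pos_left _ hC₀0
    calc M + 1 = 2 * (M + 1) * (1 / 2) := by ring
      _ < ‖qseq (fA c) k‖ * (1 / 2) := by gcongr
      _ ≤ ‖qseq (fA c) k‖ * (γ * r ^ n) ^ k := by gcongr
  have B6 : Q1 * η ≤ 1 := by rw [mul_comm]; exact hη
  nlinarith

end Pool.Agent.H720R2
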