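import Mathlib
import Pool.Agent.H720R2.Core2

set_option autoImplicit false

open Complex Set Function Metric Finset
open scoped Real Topology

namespace Pool.Agent.H720R2

theorem exists_c {δ : ℝ} (hδ0 : 0 ≤ δ) (hδ : δ < 1) :
    ∃ c : ℝ, 0 < c ∧ Real.cosh (2 * (c * π)) ≤ 2 ∧
      (1 + δ ^ 2) / 2 < (Real.cosh (2 * (c * π)))⁻¹ := by
  have h1 : Filter.Tendsto (fun c : ℝ => Real.cosh (2 * (c * π))) (𝓝 0)
      (𝓝 (Real.cosh (2 * (0 * π)))) := by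
    apply Continuous.tendsto
    have := Real.continuous_cosh
    fun_prop
  have h2 : Real.cosh (2 * ((0 : ℝ) * π)) = 1 := by simp
  rw [h2] at h1
  have h3 : (1 : ℝ) < 2 / (1 + δ ^ 2) := by
    rw [lt_div_iff₀ (by positivity)]
    nlinarith
  have h4 : ∀ᶠ c in 𝓝 (0 : ℝ), Real.cosh (2 * (c * π)) < min 2 (2 / (1 + δ ^ 2)) :=
    h1.eventually_lt_const (lt_min (by norm_num) h3)
  have h5 : ∀ᶠ c in 𝓝[>] (0 : ℝ), Real.cosh (2 * (c * π)) < min 2 (2 / (1 + δ ^ 2)) ∧ 0 < c :=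
    (h4.filter_mono nhdsWithin_le_nhds).and self_mem_nhdsWithin
  obtain ⟨c, hc, hc0⟩ := h5.exists
  refine ⟨c, hc0, (lt_of_lt_of_le hc (min_le_left _ _)).le, ?_⟩
  have h6 := lt_of_lt_of_le hc (min_le_right _ _)
  have h7 : 0 < Real.cosh (2 * (c * π)) := Real.cosh_pos _
  rw [lt_inv_comm₀ (by positivity) h7]
  rwa [inv_div]

theorem exists_r (n : ℕ) (hn : 0 < n) (k : ℕ) :
    ∃ r : ℝ, 0 < r ∧ n * r ^ 2 < 1 ∧ 1 / 2 ≤ (Real.sqrt n ^ n * r ^ n) ^ k := by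
  have hn' : (0 : ℝ) < n := by exact_mod_cast hn
  have hs : 0 < Real.sqrt n := Real.sqrt_pos.2 hn'
  have h1 : Filter.Tendsto (fun u : ℝ => ((u ^ n) ^ k)) (𝓝[<] 1) (𝓝 ((1 ^ n) ^ k)) := by
    apply Filter.Tendsto.mono_left _ nhdsWithin_le_nhds
    apply Continuous.tendsto
    fun_prop
  simp only [one_pow] at h1
  have h2 : ∀ᶠ u in 𝓝[<] (1 : ℝ), 1 / 2 < (u ^ n) ^ k := h1.eventually_const_lt (by norm_num)
  have h3 : ∀ᶠ u in 𝓝[<] (1 : ℝ), (0 : ℝ) < u := by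
    apply Filter.Eventually.filter_mono nhdsWithin_le_nhds
    exact lt_mem_nhds one_pos
  have h4 : ∀ᶠ u in 𝓝[<] (1 : ℝ), u < 1 := self_mem_nhdsWithin
  obtain ⟨u, hu1, hu2, hu3⟩ := (h2.and (h3.and h4)).exists
  refine ⟨u / Real.sqrt n, by positivity, ?_, ?_⟩
  · rw [div_pow, Real.sq_sqrt hn'.le]
    have : (n : ℝ) * (u ^ 2 / n) = u ^ 2 := by field_simp
    rw [this]
    nlinarith
  · have : Real.sqrt n ^ n * (u / Real.sqrt n) ^ n = u ^ n := by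
      rw [← mul_pow, mul_div_cancel₀ _ hs.ne']
    rw [this]
    exact hu1.le

/-- The data on the unit ball: for every `δ < 1` and `M`, in every large dimension `n` there are
finitely many holomorphic functions on the ball with `δ² < ∑ |F|² ≤ 1`, for which every (even
approximate, near a small polydisc) solution is larger than `M`. -/
theorem core {δ M : ℝ} (hδ0 : 0 ≤ δ) (hδ : δ < 1) (hM : 0 ≤ M) :
    ∃ n₀ : ℕ, ∀ n ≥ n₀, 0 < n ∧ ∃ (ι : Finset (Fin n → ℕ)) (F0 : (Fin n → ℂ) → ℂ)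
      (F : (Fin n → ℕ) → (Fin n → ℂ) → ℂ) (r η : ℝ), 0 < r ∧ 0 < η ∧
      closedBall (0 : Fin n → ℂ) r ⊆ Bn n ∧ DifferentiableOn ℂ F0 (Bn n) ∧
      (∀ α, DifferentiableOn ℂ (F α) (Bn n)) ∧
      (∀ z ∈ Bn n, δ ^ 2 < ‖F0 z‖ ^ 2 + ∑ α ∈ ι, ‖F α z‖ ^ 2) ∧
      (∀ z ∈ Bn n, ‖F0 z‖ ^ 2 + ∑ α ∈ ι, ‖F α z‖ ^ 2 ≤ 1) ∧
      ∀ U : Set (Fin n → ℂ), IsOpen U → closedBall 0 r ⊆ U →
        ∀ (h0 : (Fin n → ℂ) → ℂ) (h : (Fin n → ℕ) → (Fin n → ℂ) → ℂ),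
          DifferentiableOn ℂ h0 U → (∀ α, DifferentiableOn ℂ (h α) U) →
          (∀ z ∈ closedBall (0 : Fin n → ℂ) r,
            ‖F0 z * h0 z + ∑ α ∈ ι, F α z * h α z - 1‖ ≤ η) →
          ∃ z ∈ closedBall (0 : Fin n → ℂ) r, M < ‖h0 z‖ := by
  obtain ⟨c, hc, hc2, hcδ⟩ := exists_c hδ0 hδ
  set Ch : ℝ := Real.cosh (2 * (c * π)) with hCh
  have hCh1 : 1 ≤ Ch := Real.one_le_cosh _
  have hCh0 : 0 < Ch := by linarith
  set C₀ : ℝ := Real.sqrt Ch with hC₀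
  have hC₀1 : 1 ≤ C₀ := by rw [hC₀]; exact Real.one_le_sqrt.2 hCh1
  have hC₀0 : 0 < C₀ := by linarith
  have hC₀2 : C₀ ^ 2 = Ch := Real.sq_sqrt hCh0.le
  -- a large coefficient
  obtain ⟨t₀, ht₀, hzero⟩ := exists_zero hc
  have hA0 : fA c 0 ≠ 0 := by rw [fA_zero]; exact one_ne_zero
  have hAK : ∀ t ∈ ball (0 : ℂ) 1, ‖fA c t‖ ≤ 2 := by
    intro t ht
    rw [mem_ball_zero_iff] at ht
    have := fAB_le hc.le ht
    nlinarith [norm_nonneg (fA c t), sq_nonneg ‖fB c t‖]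
  obtain ⟨k, hk⟩ := exists_large_qseq (differentiableOn_fA c) hA0 hAK ht₀ hzero (2 * (M + 1))
  -- `ε`
  set ε : ℝ := (1 - δ ^ 2) / 48 with hε
  have hδ2 : δ ^ 2 < 1 := by nlinarith
  have hε0 : 0 < ε := by rw [hε]; linarith
  have hq0 := qc_pos ε (k + 1)
  have hq1 := qc_lt_one hε0 (k + 1)
  obtain ⟨n₁, hn₁⟩ := exists_pow_lt_of_lt_one hε0 hq1
  refine ⟨n₁ + 1, fun n hn => ?_⟩
  have hn0 : 0 < n := by omega
  have hn' : (0 : ℝ) < n := by exact_mod_cast hn0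
  refine ⟨hn0, ?_⟩
  -- `τ` and `K`
  set τ : ℝ := min 1 (ε / n) with hτ
  have hτ0 : 0 < τ := by positivity
  have hτ1 : τ ≤ 1 := min_le_left _ _
  have hτn : n * τ ≤ ε := by
    calc (n : ℝ) * τ ≤ n * (ε / n) := by gcongr; exact min_le_right _ _
      _ = ε := by field_simp
  obtain ⟨K₀, hK₀⟩ := exists_trunc (ε * n) τ hτ0
  set K : ℕ := max K₀ (k + 1) with hK
  have hKa : k + 1 ≤ K := le_max_right _ _
  obtain ⟨r, hr0, hr1, hr2⟩ := exists_r n hn0 k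
  have hrB : closedBall (0 : Fin n → ℂ) r ⊆ Bn n := closedBall_subset_Bn hr0.le hr1
  set Q1 : ℝ := ∑ j ∈ range (k + 1), ‖qseq (fA c) j‖ with hQ1
  have hQ10 : 0 ≤ Q1 := Finset.sum_nonneg fun _ _ => norm_nonneg _
  have hgB : MapsTo (gg n) (Bn n) (ball 0 1) := fun z hz => by
    rw [mem_ball_zero_iff]; exact norm_gg_lt_one hn0 hz
  have hgd : DifferentiableOn ℂ (gg n) (Bn n) := (differentiable_gg n).differentiableOn
  have hnormsum : ∀ z, ‖fA c (gg n z) / (C₀ : ℂ)‖ ^ 2 + ∑ α ∈ idx n K (k + 1),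
      ‖fB c (gg n z) * mo (ε * n) α z / (C₀ : ℂ)‖ ^ 2 =
      Ch⁻¹ * (‖fA c (gg n z)‖ ^ 2 + ‖fB c (gg n z)‖ ^ 2 *
        ∑ α ∈ idx n K (k + 1), ‖mo (ε * n) α z‖ ^ 2) := by
    intro z
    rw [mul_add, ← mul_assoc, Finset.mul_sum, norm_div, div_pow, Complex.norm_real,
      Real.norm_of_nonneg hC₀0.le, hC₀2]
    congr 1
    · ring
    · refine Finset.sum_congr rfl fun α _ => ?_
      rw [norm_div, norm_mul, div_pow, mul_pow, Complex.norm_real,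
        Real.norm_of_nonneg hC₀0.le, hC₀2]
      ring
  refine ⟨idx n K (k + 1), fun z => fA c (gg n z) / C₀,
    fun α z => fB c (gg n z) * mo (ε * n) α z / C₀, r, 1 / (Q1 + 1), hr0, by positivity, hrB,
    ?_, ?_, ?_, ?_, ?_⟩
  · simp only [div_eq_mul_inv]
    exact ((differentiableOn_fA c).comp hgd hgB).mul_const _
  · intro α
    simp only [div_eq_mul_inv]
    exact (((differentiableOn_fB c).comp hgd hgB).mul
      (differentiable_mo _ α).differentiableOn).mul_const _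
  · intro z hz
    rw [hnormsum z]
    set S : ℝ := ∑ α ∈ idx n K (k + 1), ‖mo (ε * n) α z‖ ^ 2 with hS
    have hgz := norm_gg_lt_one hn0 hz
    have hest := main_estimate hn0 hε0 hτ0.le hτ1 hτn hKa (fun y hy0 hy1 =>
      hK₀ K (le_max_left _ _) y hy0 hy1) hz
    rw [← hS] at hest
    have hqn : qc ε (k + 1) ^ n ≤ ε := by
      calc qc ε (k + 1) ^ n ≤ qc ε (k + 1) ^ n₁ :=
            pow_le_pow_of_le_one hq0.le hq1.le (by omega)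
        _ ≤ ε := hn₁.le
    have hS1 : S ≤ 1 := sum_mo_le_one (by positivity) hKa hz
    have hBz : ‖fB c (gg n z)‖ ≤ 2 * ‖gg n z‖ := fB_le hc.le hc2 hgz
    have hB2 : ‖fB c (gg n z)‖ ^ 2 ≤ 4 * ‖gg n z‖ ^ 2 := by
      calc ‖fB c (gg n z)‖ ^ 2 ≤ (2 * ‖gg n z‖) ^ 2 := by gcongr
        _ = _ := by ring
    have h1 : ‖fB c (gg n z)‖ ^ 2 * (1 - S) ≤ 12 * ε := by
      calc ‖fB c (gg n z)‖ ^ 2 * (1 - S) ≤ 4 * ‖gg n z‖ ^ 2 * (1 - S) := by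
            have : 0 ≤ 1 - S := by linarith
            gcongr
        _ = 4 * (‖gg n z‖ ^ 2 * (1 - S)) := by ring
        _ ≤ 4 * (3 * ε) := by linarith
        _ = 12 * ε := by ring
    have h2 := fAB_ge c (gg n z)
    have h3 : 1 - 12 * ε ≤ ‖fA c (gg n z)‖ ^ 2 + ‖fB c (gg n z)‖ ^ 2 * S := by nlinarith
    have h4 : δ ^ 2 < (1 + δ ^ 2) / 2 * (1 - 12 * ε) := by
      rw [hε]; nlinarith
    have h5 : 0 < 1 - 12 * ε := by rw [hε]; nlinarith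
    calc δ ^ 2 < (1 + δ ^ 2) / 2 * (1 - 12 * ε) := h4
      _ ≤ Ch⁻¹ * (1 - 12 * ε) := by gcongr
      _ ≤ _ := by gcongr
  · intro z hz
    rw [hnormsum z]
    have hgz := norm_gg_lt_one hn0 hz
    have hS1 : ∑ α ∈ idx n K (k + 1), ‖mo (ε * n) α z‖ ^ 2 ≤ 1 :=
      sum_mo_le_one (by positivity) hKa hz
    have h2 := fAB_le hc.le hgz
    rw [inv_mul_le_iff₀ hCh0, mul_one]
    calc _ ≤ ‖fA c (gg n z)‖ ^ 2 + ‖fB c (gg n z)‖ ^ 2 * 1 := by gcongr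
      _ ≤ Ch := by rw [mul_one]; exact h2
  · intro U hU hpU h0 h hh0 hh heq
    refine core_lower hc.le hn0 hC₀1 hM hk hr0 hrB hr2 ?_ hU hpU hh0 hh heq
    rw [← hQ1, one_div, inv_mul_le_iff₀ (by positivity)]
    linarith

end Pool.Agent.H720R2
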